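import Pool.Agent.GKR.Lem
import Pool.Agent.TC.GKAlg

/-!
# GKR Alg: no polynomial curve with at most two places on a very general family of plane curves

`x` polynomials with `F m (x) = c m X ^ k m`; derivations `D` of `ℂ` act on the coefficients (`cD`), `∑ j, ∂_j (F m) (x) D (x j) = (D (c m) / c m) F m (x) - (D F m) (x)`.  `Λ w = det (x, X x', w)`.
-/

set_option autoImplicit false

open Polynomial
open Pool.Agent.TC (gr gr_add gr_smul gr_self gr_lx gr_cD lx det3 det3_add det3_smul lam lam_sub lam_add lam_smul mD mD_zero_fun mD_sub_der mD_add_der mD_smul_der cD cD_add cD_mul cD_C cD_C_mul_X_pow natDegree_cD_le cD_sub_der cD_add_der cD_smul_der)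

namespace Pool.Agent.GKR

variable {r : ℕ} {d k : Fin r → ℕ} {c : Fin r → ℂ} {F : Fin r → MvPolynomial (Fin 3) ℂ} {x : Fin 3 → ℂ[X]} {M : ℕ}

namespace CrvR

/-- the variation of a solution along a derivation of `ℂ` -/
theorem gr_der (h : CrvR d k c F x M) (D : Derivation ℚ ℂ ℂ) (m : Fin r) :
    gr x (F m) (fun j => cD D (x j)) = C (D (c m) / c m) * MvPolynomial.aeval x (F m) - MvPolynomial.aeval x (mD D (F m)) := by
  rw [gr_cD, h.eq m, cD_C_mul_X_pow, ← mul_assoc, ← C_mul, div_mul_cancel₀ _ (h.ne m)]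

theorem logR_x (h : CrvR d k c F x M) : LogR F x M M x := by
  refine ⟨h.deg, fun m => ⟨C (d m : ℂ), ?_, gr_self (h.hom m) x⟩⟩
  rw [natDegree_C]
  exact Nat.zero_le _

theorem natDegree_lx (h : CrvR d k c F x M) (i : Fin 3) : (lx x i).natDegree ≤ M := by
  unfold lx
  rw [natDegree_le_iff_coeff_eq_zero]
  intro n hn
  obtain ⟨n, rfl⟩ : ∃ n', n = n' + 1 := ⟨n - 1, by omega⟩
  rw [coeff_X_mul, coeff_derivative, coeff_eq_zero_of_natDegree_lt (by have := h.deg i; omega), zero_mul]

theorem logR_lx (h : CrvR d k c F x M) : LogR F x M M (lx x) := by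
  refine ⟨h.natDegree_lx, fun m => ⟨C (k m : ℂ), ?_, ?_⟩⟩
  · rw [natDegree_C]
    exact Nat.zero_le _
  · rw [gr_lx, h.eq m, derivative_C_mul_X_pow, ← mul_assoc, mul_comm X, mul_assoc]
    rcases Nat.eq_zero_or_pos (k m) with h0 | h0
    · rw [h0]
      simp
    · rw [← pow_succ', Nat.sub_add_cancel h0, C_mul]
      ring

/-- `Λ` vanishes on logarithmic vectors of weight `M` -/
theorem det_zero₁ (h : CrvR d k c F x M) (hr : 2 ≤ r) (h5 : 5 ≤ ∑ m, d m) (hM : 1 ≤ M) {w : Fin 3 → ℂ[X]} (hw : LogR F x M M w) :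
    det3 x (lx x) w = 0 := by
  refine h.det3_eq_zero hr le_rfl le_rfl le_rfl ?_ h.logR_x h.logR_lx hw
  nlinarith

/-- `Λ` vanishes on logarithmic vectors of weight `2 M` -/
theorem det_zero₂ (h : CrvR d k c F x M) (hr : 2 ≤ r) (h5 : 5 ≤ ∑ m, d m) (hM : 1 ≤ M) {w : Fin 3 → ℂ[X]} (hw : LogR F x M (2 * M) w) :
    det3 x (lx x) w = 0 := by
  refine h.det3_eq_zero hr le_rfl le_rfl (by omega) ?_ h.logR_x h.logR_lx hw
  nlinarith

end CrvR

namespace CrvR

/-- if `(D F m) (x) = q F m (x)` with constants `q` then `Λ (D x) = 0` -/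
theorem lam_eq_zero (h : CrvR d k c F x M) (hr : 2 ≤ r) (h5 : 5 ≤ ∑ m, d m) (hM : 1 ≤ M) {D : Derivation ℚ ℂ ℂ}
    (hD : ∀ m, ∃ q : ℂ, MvPolynomial.aeval x (mD D (F m)) = C q * MvPolynomial.aeval x (F m)) : lam x D = 0 := by
  refine h.det_zero₁ hr h5 hM ⟨fun i => (natDegree_cD_le D _).trans (h.deg i), fun m => ?_⟩
  obtain ⟨q, hq⟩ := hD m
  refine ⟨C (D (c m) / c m - q), by rw [natDegree_C]; exact Nat.zero_le _, ?_⟩
  rw [h.gr_der, hq, C_sub]
  ring

/-- the main relation -/
theorem lam_swap (h : CrvR d k c F x M) (hr : 2 ≤ r) (h5 : 5 ≤ ∑ m, d m) (hM : 1 ≤ M) {D D' : Derivation ℚ ℂ ℂ} (j l : Fin 3)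
    (hD : ∀ m, x j * MvPolynomial.aeval x (mD D (F m)) = x l * MvPolynomial.aeval x (mD D' (F m))) : x j * lam x D = x l * lam x D' := by
  have h1 : LogR F x M (2 * M) ((x j • fun i => cD D (x i)) + (-x l) • fun i => cD D' (x i)) := by
    refine ⟨fun i => ?_, fun m => ?_⟩
    · rw [Pi.add_apply, Pi.smul_apply, Pi.smul_apply, smul_eq_mul, smul_eq_mul]
      refine (natDegree_add_le _ _).trans (max_le ?_ ?_)
      · refine natDegree_mul_le.trans ?_
        have h1 := h.deg j
        have h2 := (natDegree_cD_le D (x i)).trans (h.deg i)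
        omega
      · refine natDegree_mul_le.trans ?_
        rw [natDegree_neg]
        have h1 := h.deg l
        have h2 := (natDegree_cD_le D' (x i)).trans (h.deg i)
        omega
    · refine ⟨C (D (c m) / c m) * x j - C (D' (c m) / c m) * x l, ?_, ?_⟩
      · refine (natDegree_sub_le _ _).trans (max_le ?_ ?_)
        · refine (natDegree_C_mul_le _ _).trans ?_
          have h1 := h.deg j
          omega
        · refine (natDegree_C_mul_le _ _).trans ?_
          have h1 := h.deg l
          omega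
      · rw [gr_add, gr_smul, gr_smul, h.gr_der, h.gr_der]
        linear_combination -(hD m)
  have h2 := h.det_zero₂ hr h5 hM h1
  rw [det3_add, det3_smul, det3_smul] at h2
  have h3 : x j * lam x D + -x l * lam x D' = 0 := h2
  linear_combination h3

end CrvR

/-- the pair of forms `(G, 0)` or `(0, G)` -/
noncomputable def slot (m : Fin r) (G : MvPolynomial (Fin 3) ℂ) : Fin r → MvPolynomial (Fin 3) ℂ := fun l => if l = m then G else 0

theorem slot_hom {m : Fin r} {G : MvPolynomial (Fin 3) ℂ} (hG : G.IsHomogeneous (d m)) (l : Fin r) : (slot m G l).IsHomogeneous (d l) := by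
  unfold slot
  split_ifs with h
  · rw [h]
    exact hG
  · exact MvPolynomial.isHomogeneous_zero _ _ _

/-- `Λ (D x)` depends only on the derivatives of the two forms -/
theorem CrvR.lam_congr (h : CrvR d k c F x M) (hr : 2 ≤ r) (h5 : 5 ≤ ∑ m, d m) (hM : 1 ≤ M) {D D' : Derivation ℚ ℂ ℂ} (hD : ∀ m, mD D (F m) = mD D' (F m)) :
    lam x D = lam x D' := by
  have h1 : lam x (D - D') = 0 := by
    refine h.lam_eq_zero hr h5 hM fun m => ⟨0, ?_⟩
    rw [mD_sub_der, hD, sub_self, map_zero, C_0, zero_mul]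
  rw [lam_sub] at h1
  exact sub_eq_zero.1 h1

/-- the induction: `x_o ^ a Λ (D_{B X_o ^ s}) = B (x) Λ (D_{X_o ^ (a + s)})` for forms `B` of degree `a` -/
theorem CrvR.lam_pow (h : CrvR d k c F x M) (hr : 2 ≤ r) (h5 : 5 ≤ ∑ m, d m) (hM : 1 ≤ M) (hF : Generic d F) (o : Fin 3) (m : Fin r)
    {D₀ : Derivation ℚ ℂ ℂ} (hD₀ : ∀ l, mD D₀ (F l) = slot m (MvPolynomial.X o ^ d m) l) :
    ∀ (a s : ℕ), a + s = d m → ∀ B : MvPolynomial (Fin 3) ℂ, B.IsHomogeneous a → ∀ D : Derivation ℚ ℂ ℂ,
      (∀ l, mD D (F l) = slot m (B * MvPolynomial.X o ^ s) l) → x o ^ a * lam x D = MvPolynomial.aeval x B * lam x D₀ := by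
  intro a
  induction a with
  | zero =>
    intro s hs B hB D hD
    obtain ⟨b, rfl⟩ : ∃ b : ℂ, B = MvPolynomial.C b := ⟨_, MvPolynomial.totalDegree_eq_zero_iff_eq_C.1 (Nat.le_zero.1 hB.totalDegree_le)⟩
    have h1 : lam x D = lam x (b • D₀) := by
      refine h.lam_congr hr h5 hM fun l => ?_
      rw [hD, mD_smul_der, hD₀]
      unfold slot
      split_ifs
      · rw [← hs, zero_add]
      · rw [mul_zero]
    rw [h1, lam_smul, pow_zero, one_mul, MvPolynomial.aeval_C]
    rfl
  | succ a ih =>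
    intro s hs B hB D hD
    -- for every `l` a derivation `E l` with the derivative `∂_l B X_o ^ (s + 1)`, and `E' l` with `∂_l B X_l X_o ^ s`
    have hB' : ∀ l, (MvPolynomial.pderiv l B).IsHomogeneous a := fun l => hB.pderiv
    have hX : ∀ (l : Fin 3) (n : ℕ), (MvPolynomial.X l ^ n : MvPolynomial (Fin 3) ℂ).IsHomogeneous n := fun l n => by
      have := (MvPolynomial.isHomogeneous_X ℂ l).pow n
      rwa [one_mul] at this
    have hE : ∀ l, ∃ E : Derivation ℚ ℂ ℂ, ∀ i, mD E (F i) = slot m (MvPolynomial.pderiv l B * MvPolynomial.X o ^ (s + 1)) i := fun l =>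
      hF.exists_der h.hom _ (slot_hom (by
        have := (hB' l).mul (hX o (s + 1))
        rwa [show a + (s + 1) = d m by omega] at this))
    have hE' : ∀ l, ∃ E : Derivation ℚ ℂ ℂ, ∀ i, mD E (F i) = slot m (MvPolynomial.pderiv l B * MvPolynomial.X l * MvPolynomial.X o ^ s) i := fun l =>
      hF.exists_der h.hom _ (slot_hom (by
        have := ((hB' l).mul (MvPolynomial.isHomogeneous_X ℂ l)).mul (hX o s)
        rwa [show a + 1 + s = d m by omega] at this))
    choose E hE using hE
    choose E' hE' using hE'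
    have h1 : ∀ l, x o * lam x (E' l) = x l * lam x (E l) := by
      intro l
      refine h.lam_swap hr h5 hM o l fun i => ?_
      rw [hE, hE']
      unfold slot
      split_ifs
      · simp only [map_mul, map_pow, MvPolynomial.aeval_X]
        ring
      · simp
    have h2 : ∀ l, x o ^ a * lam x (E l) = MvPolynomial.aeval x (MvPolynomial.pderiv l B) * lam x D₀ := fun l =>
      ih (s + 1) (by omega) _ (hB' l) (E l) (hE l)
    have h3 : C ((a + 1 : ℕ) : ℂ) * lam x D = ∑ l, lam x (E' l) := by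
      have h4 : lam x (((a + 1 : ℕ) : ℂ) • D) = lam x (∑ l, E' l) := by
        refine h.lam_congr hr h5 hM fun i => ?_
        have h5 : ∀ (s : Finset (Fin 3)), mD (∑ l ∈ s, E' l) (F i) = ∑ l ∈ s, mD (E' l) (F i) := by
          classical
          intro s
          induction s using Finset.induction_on with
          | empty =>
            rw [Finset.sum_empty, Finset.sum_empty]
            exact mD_zero_fun _
          | insert b s ha ih' => rw [Finset.sum_insert ha, Finset.sum_insert ha, mD_add_der, ih']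
        rw [h5, mD_smul_der, hD, Finset.sum_congr rfl fun l _ => hE' l i]
        unfold slot
        split_ifs
        · rw [← Finset.sum_mul]
          have h6 : ∑ l, MvPolynomial.pderiv l B * MvPolynomial.X l = MvPolynomial.C ((a + 1 : ℕ) : ℂ) * B := by
            have h7 := hB.sum_X_mul_pderiv
            rw [nsmul_eq_mul] at h7
            rw [map_natCast, ← h7]
            exact Finset.sum_congr rfl fun l _ => mul_comm _ _
          rw [h6]
          ring
        · simp
      rw [lam_smul] at h4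
      rw [h4]
      have h5 : ∀ (s : Finset (Fin 3)), lam x (∑ l ∈ s, E' l) = ∑ l ∈ s, lam x (E' l) := by
        classical
        intro s
        induction s using Finset.induction_on with
        | empty =>
          rw [Finset.sum_empty, Finset.sum_empty]
          have := lam_sub x 0 0
          rw [sub_self, sub_self] at this
          exact this
        | insert b s ha ih' => rw [Finset.sum_insert ha, Finset.sum_insert ha, lam_add, ih']
      exact h5 _
    have h4 : C ((a + 1 : ℕ) : ℂ) * (x o ^ (a + 1) * lam x D) = C ((a + 1 : ℕ) : ℂ) * (MvPolynomial.aeval x B * lam x D₀) := by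
      have h6 : ∑ l, x l * MvPolynomial.aeval x (MvPolynomial.pderiv l B) = C ((a + 1 : ℕ) : ℂ) * MvPolynomial.aeval x B := by
        rw [← gr_self hB x]
        unfold gr
        exact Finset.sum_congr rfl fun l _ => mul_comm _ _
      calc C ((a + 1 : ℕ) : ℂ) * (x o ^ (a + 1) * lam x D) = x o ^ (a + 1) * (C ((a + 1 : ℕ) : ℂ) * lam x D) := by ring
        _ = ∑ l, x o ^ a * (x o * lam x (E' l)) := by
          rw [h3, Finset.mul_sum]
          refine Finset.sum_congr rfl fun l _ => ?_
          ring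
        _ = ∑ l, x l * MvPolynomial.aeval x (MvPolynomial.pderiv l B) * lam x D₀ := by
          refine Finset.sum_congr rfl fun l _ => ?_
          rw [h1 l, mul_assoc (x l), ← h2 l]
          ring
        _ = C ((a + 1 : ℕ) : ℂ) * (MvPolynomial.aeval x B * lam x D₀) := by
          rw [← Finset.sum_mul, h6]
          ring
    have h5 : (C ((a + 1 : ℕ) : ℂ) : ℂ[X]) ≠ 0 := by
      rw [Ne, C_eq_zero]
      exact_mod_cast Nat.succ_ne_zero a
    exact mul_left_cancel₀ h5 h4

/-- `Λ (D x) = 0` for all derivations with `D F_l = 0` for `l ≠ m` -/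
theorem CrvR.lam_slot (h : CrvR d k c F x M) (hr : 2 ≤ r) (h5 : 5 ≤ ∑ m, d m) (hM : 1 ≤ M) (hF : Generic d F) (m : Fin r) {G : MvPolynomial (Fin 3) ℂ}
    (hG : G.IsHomogeneous (d m)) {D : Derivation ℚ ℂ ℂ} (hD : ∀ l, mD D (F l) = slot m G l) : lam x D = 0 := by
  obtain ⟨o, ho⟩ := h.low
  have hxo : x o ≠ 0 := by
    intro h0
    rw [h0, coeff_zero] at ho
    exact ho rfl
  have hX : (MvPolynomial.X o ^ d m : MvPolynomial (Fin 3) ℂ).IsHomogeneous (d m) := by
    have := (MvPolynomial.isHomogeneous_X ℂ o).pow (d m)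
    rwa [one_mul] at this
  obtain ⟨D₀, hD₀⟩ := hF.exists_der h.hom _ (slot_hom hX)
  have key : ∀ (B : MvPolynomial (Fin 3) ℂ), B.IsHomogeneous (d m) → ∀ D : Derivation ℚ ℂ ℂ, (∀ l, mD D (F l) = slot m B l) →
      x o ^ d m * lam x D = MvPolynomial.aeval x B * lam x D₀ := by
    intro B hB D hD
    refine h.lam_pow hr h5 hM hF o m hD₀ (d m) 0 (by omega) B hB D fun l => ?_
    rw [hD, pow_zero, mul_one]
  obtain ⟨D₁, hD₁⟩ := hF.exists_der h.hom _ (slot_hom (h.hom m))
  have h1 := key _ (h.hom m) D₁ hD₁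
  have h2 : lam x D₁ = 0 := by
    refine h.lam_eq_zero hr h5 hM fun l => ?_
    rw [hD₁]
    unfold slot
    split_ifs with hl
    · subst hl
      exact ⟨1, by rw [C_1, one_mul]⟩
    · exact ⟨0, by rw [map_zero, C_0, zero_mul]⟩
  have h3 : lam x D₀ = 0 := by
    rw [h2, mul_zero] at h1
    refine (mul_eq_zero.1 h1.symm).resolve_left ?_
    rw [h.eq m]
    exact mul_ne_zero (by rw [Ne, C_eq_zero]; exact h.ne m) (pow_ne_zero _ X_ne_zero)
  have h4 := key _ hG D hD
  rw [h3, mul_zero] at h4
  exact (mul_eq_zero.1 h4).resolve_left (pow_ne_zero _ hxo)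

theorem mD_sum {ι : Type*} (s : Finset ι) (E : ι → Derivation ℚ ℂ ℂ) (G : MvPolynomial (Fin 3) ℂ) :
    mD (∑ l ∈ s, E l) G = ∑ l ∈ s, mD (E l) G := by
  classical
  induction s using Finset.induction_on with
  | empty =>
    rw [Finset.sum_empty, Finset.sum_empty]
    exact mD_zero_fun _
  | insert a s ha ih' => rw [Finset.sum_insert ha, Finset.sum_insert ha, mD_add_der, ih']

theorem lam_sum {ι : Type*} (s : Finset ι) (E : ι → Derivation ℚ ℂ ℂ) (x : Fin 3 → ℂ[X]) :
    lam x (∑ l ∈ s, E l) = ∑ l ∈ s, lam x (E l) := by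
  classical
  induction s using Finset.induction_on with
  | empty =>
    rw [Finset.sum_empty, Finset.sum_empty]
    have := lam_sub x 0 0
    rw [sub_self, sub_self] at this
    exact this
  | insert a s ha ih' => rw [Finset.sum_insert ha, Finset.sum_insert ha, lam_add, ih']

/-- `Λ (D x) = 0` for all derivations -/
theorem CrvR.lam_all (h : CrvR d k c F x M) (hr : 2 ≤ r) (h5 : 5 ≤ ∑ m, d m) (hM : 1 ≤ M) (hF : Generic d F) {H : Fin r → MvPolynomial (Fin 3) ℂ}
    (hH : ∀ m, (H m).IsHomogeneous (d m)) {D : Derivation ℚ ℂ ℂ} (hD : ∀ l, mD D (F l) = H l) : lam x D = 0 := by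
  have hE : ∀ m, ∃ E : Derivation ℚ ℂ ℂ, ∀ l, mD E (F l) = slot m (H m) l := fun m => hF.exists_der h.hom _ (slot_hom (hH m))
  choose E hE using hE
  have h2 : lam x D = lam x (∑ m, E m) := by
    refine h.lam_congr hr h5 hM fun l => ?_
    rw [hD, mD_sum, Finset.sum_eq_single l]
    · rw [hE]
      unfold slot
      rw [if_pos rfl]
    · intro b _ hb
      rw [hE]
      unfold slot
      rw [if_neg hb.symm]
    · intro hl
      exact absurd (Finset.mem_univ _) hl
  rw [h2, lam_sum]
  exact Finset.sum_eq_zero fun m _ => h.lam_slot hr h5 hM hF m (hH m) (hE m)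

/-- `Λ = 0` -/
theorem CrvR.cross_zero (h : CrvR d k c F x M) (hr : 2 ≤ r) (h5 : 5 ≤ ∑ m, d m) (hM : 1 ≤ M) (hF : Generic d F) (j : Fin 3) :
    det3 x (lx x) (Pi.single j 1) = 0 := by
  obtain ⟨o, ho⟩ := h.low
  have hxo : x o ≠ 0 := by
    intro h0
    rw [h0, coeff_zero] at ho
    exact ho rfl
  have hH : ∀ m, (MvPolynomial.X o * MvPolynomial.pderiv j (F m)).IsHomogeneous (d m) := fun m => by
    have h1 := (MvPolynomial.isHomogeneous_X ℂ o).mul ((h.hom m).pderiv (i := j))
    rwa [show 1 + (d m - 1) = d m by have := h.pos m; omega] at h1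
  obtain ⟨D, hD⟩ := hF.exists_der h.hom _ hH
  have h1 := h.lam_all hr h5 hM hF hH hD
  have h2 : LogR F x M M ((fun i => cD D (x i)) + x o • Pi.single j 1) := by
    refine ⟨fun i => ?_, fun m => ⟨C (D (c m) / c m), by rw [natDegree_C]; exact Nat.zero_le _, ?_⟩⟩
    · rw [Pi.add_apply, Pi.smul_apply, smul_eq_mul]
      refine (natDegree_add_le _ _).trans (max_le ((natDegree_cD_le D _).trans (h.deg i)) ?_)
      by_cases hi : i = j
      · subst hi
        rw [Pi.single_eq_same, mul_one]
        exact h.deg o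
      · rw [Pi.single_eq_of_ne hi, mul_zero, natDegree_zero]
        exact Nat.zero_le _
    · rw [gr_add, gr_smul, h.gr_der, hD]
      have h3 : gr x (F m) (Pi.single j 1) = MvPolynomial.aeval x (MvPolynomial.pderiv j (F m)) := by
        unfold gr
        rw [Finset.sum_eq_single j]
        · rw [Pi.single_eq_same, mul_one]
        · intro b _ hb
          rw [Pi.single_eq_of_ne hb, mul_zero]
        · intro hj
          exact absurd (Finset.mem_univ _) hj
      rw [h3, map_mul, MvPolynomial.aeval_X]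
      ring
  have h3 := h.det_zero₁ hr h5 hM h2
  rw [det3_add, det3_smul] at h3
  have h4 : lam x D + x o * det3 x (lx x) (Pi.single j 1) = 0 := h3
  rw [h1, zero_add] at h4
  exact (mul_eq_zero.1 h4).resolve_left hxo

end Pool.Agent.GKR
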