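import Pool.Agent.GKR.Alg
import Pool.Agent.TC.GKEnd

/-!
# GKR End: no polynomial curve with at most two places on a very general family of plane curves of total degree at least five
-/

set_option autoImplicit false

open Polynomial
open Pool.Agent.TC (lx det3 prop_of_cross)

namespace Pool.Agent.GKR

variable {r : ℕ} {d k : Fin r → ℕ} {c : Fin r → ℂ} {F : Fin r → MvPolynomial (Fin 3) ℂ} {x : Fin 3 → ℂ[X]} {M : ℕ}

theorem CrvR.prop (h : CrvR d k c F x M) (hr : 2 ≤ r) (h5 : 5 ≤ ∑ m, d m) (hM : 1 ≤ M) (hF : Generic d F) :
    ∃ (p : ℂ[X]) (v : Fin 3 → ℂ), ∀ i, x i = C (v i) * p := by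
  have h0 := h.cross_zero hr h5 hM hF 0
  have h1 := h.cross_zero hr h5 hM hF 1
  have h2 := h.cross_zero hr h5 hM hF 2
  unfold det3 at h0 h1 h2
  rw [Pi.single_eq_same, Pi.single_eq_of_ne (by decide), Pi.single_eq_of_ne (by decide)] at h0 h1 h2
  have e12 : x 1 * lx x 2 = x 2 * lx x 1 := by linear_combination h0
  have e02 : x 0 * lx x 2 = x 2 * lx x 0 := by linear_combination -h1
  have e01 : x 0 * lx x 1 = x 1 * lx x 0 := by linear_combination h2
  have key : ∀ i j : Fin 3, x i * (X * derivative (x j)) = x j * (X * derivative (x i)) := by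
    intro i j
    fin_cases i <;> fin_cases j
    · rfl
    · exact e01
    · exact e02
    · exact e01.symm
    · rfl
    · exact e12
    · exact e02.symm
    · exact e12.symm
    · rfl
  obtain ⟨o, ho⟩ := h.low
  have hxo : x o ≠ 0 := by
    intro h0
    rw [h0, coeff_zero] at ho
    exact ho rfl
  choose v hv using fun i => prop_of_cross (key o i) hxo
  exact ⟨x o, v, hv⟩

/-- **A very general family of at least two plane curves of total degree at least five: polynomial curves with at most two places on them are constant.** -/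
theorem gk_alg_r (hr : 2 ≤ r) (hF : Generic d F) (hom : ∀ m, (F m).IsHomogeneous (d m)) (pos : ∀ m, 1 ≤ d m) (h5 : 5 ≤ ∑ m, d m) :
    ∀ (x : Fin 3 → ℂ[X]) (k : Fin r → ℕ) (c : Fin r → ℂ), (∀ m, c m ≠ 0) →
      (∀ m, MvPolynomial.aeval x (F m) = C (c m) * X ^ k m) → ∃ (p : ℂ[X]) (v : Fin 3 → ℂ), ∀ i, x i = C (v i) * p := by
  have key : ∀ (M : ℕ) (x : Fin 3 → ℂ[X]) (k : Fin r → ℕ) (c : Fin r → ℂ), (∀ i, (x i).natDegree ≤ M) → (∀ m, c m ≠ 0) →
      (∀ m, MvPolynomial.aeval x (F m) = C (c m) * X ^ k m) → ∃ (p : ℂ[X]) (v : Fin 3 → ℂ), ∀ i, x i = C (v i) * p := by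
    intro M
    induction M with
    | zero =>
      intro x k c hx _ _
      refine ⟨1, fun i => (x i).coeff 0, fun i => ?_⟩
      rw [mul_one]
      exact eq_C_of_natDegree_le_zero (hx i)
    | succ M ih =>
      intro x k c hx hc he
      by_cases hlow : ∃ i, (x i).coeff 0 ≠ 0
      · by_cases htop : ∃ i, (x i).coeff (M + 1) ≠ 0
        · exact CrvR.prop (M := M + 1) ⟨hom, pos, he, hc, hx, hlow, htop, hF⟩ hr h5 (by omega) hF
        · push Not at htop
          refine ih x k c (fun i => ?_) hc he
          rw [natDegree_le_iff_coeff_eq_zero]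
          intro n hn
          rcases Nat.lt_or_ge (M + 1) n with h1 | h1
          · exact coeff_eq_zero_of_natDegree_lt (lt_of_le_of_lt (hx i) h1)
          · obtain rfl : n = M + 1 := by omega
            exact htop i
      · push Not at hlow
        choose y hy using fun i => X_dvd_iff.2 (hlow i)
        have hy' : x = fun i => X * y i := funext hy
        -- the forms along `y`
        have h1 : ∀ m, X ^ d m * MvPolynomial.aeval y (F m) = C (c m) * X ^ k m := by
          intro m
          rw [← he m, hy']
          have h2 : ∀ {a : ℕ} {G : MvPolynomial (Fin 3) ℂ}, G.IsHomogeneous a →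
              MvPolynomial.aeval (fun i => X * y i) G = X ^ a * MvPolynomial.aeval y G := by
            intro a G hG
            rw [MvPolynomial.aeval_def, MvPolynomial.aeval_def, MvPolynomial.eval₂_eq', MvPolynomial.eval₂_eq', Finset.mul_sum]
            refine Finset.sum_congr rfl fun β hβ => ?_
            have h4 : ∑ i, β i = a := by
              have h5 : β.degree = a := by
                by_contra hne
                exact MvPolynomial.mem_support_iff.1 hβ (hG.coeff_eq_zero hne)
              rw [← h5]
              exact (Finsupp.degree_eq_sum β).symm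
            simp only [mul_pow, Finset.prod_mul_distrib]
            rw [Finset.prod_pow_eq_pow_sum, h4]
            ring
          exact (h2 (hom m)).symm
        have h2 : ∀ m, d m ≤ k m := by
          intro m
          have h3 : (X : ℂ[X]) ^ d m ∣ C (c m) * X ^ k m := ⟨_, (h1 m).symm⟩
          have h4 : (X : ℂ[X]) ^ d m ∣ X ^ k m := by
            rwa [mul_comm, IsUnit.dvd_mul_right (isUnit_C.2 (isUnit_iff_ne_zero.2 (hc m)))] at h3
          exact (pow_dvd_pow_iff X_ne_zero not_isUnit_X).1 h4
        have h3 : ∀ m, MvPolynomial.aeval y (F m) = C (c m) * X ^ (k m - d m) := by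
          intro m
          have h4 : (X : ℂ[X]) ^ d m ≠ 0 := pow_ne_zero _ X_ne_zero
          refine mul_left_cancel₀ h4 ?_
          rw [h1 m]
          calc C (c m) * X ^ k m = C (c m) * X ^ (d m + (k m - d m)) := by rw [Nat.add_sub_cancel' (h2 m)]
            _ = X ^ d m * (C (c m) * X ^ (k m - d m)) := by
              rw [pow_add]
              ring
        obtain ⟨p, v, hpv⟩ := ih y (fun m => k m - d m) c (fun i => by
          have h4 := hx i
          by_cases h5 : y i = 0
          · rw [h5, natDegree_zero]
            exact Nat.zero_le _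
          · rw [hy i, natDegree_X_mul h5] at h4
            omega) hc h3
        refine ⟨X * p, v, fun i => ?_⟩
        rw [hy i, hpv i]
        ring
  intro x k c hc he
  exact key (Finset.univ.sup fun i => (x i).natDegree) x k c (fun i => Finset.le_sup (f := fun i => (x i).natDegree) (Finset.mem_univ i)) hc he

end Pool.Agent.GKR
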