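import Pool.Agent.GKR.Gen
import Pool.Agent.TC.GKEx

/-!
# GKR Ex: very general families of forms exist
-/

set_option autoImplicit false

open MvPolynomial
open Pool.Agent.TC (exists_algebraicIndependent)

namespace Pool.Agent.GKR

theorem exists_generic {r : ℕ} (d : Fin r → ℕ) : ∃ F : Fin r → MvPolynomial (Fin 3) ℂ, (∀ m, (F m).IsHomogeneous (d m)) ∧ Generic d F := by
  classical
  obtain ⟨a, ha⟩ := exists_algebraicIndependent (Σ m : Fin r, {β : Fin 3 →₀ ℕ // β.degree = d m})
  obtain ⟨c, hc⟩ : ∃ c : Fin r → (Fin 3 →₀ ℕ) → ℂ, ∀ m β, c m β = if h : β.degree = d m then a ⟨m, β, h⟩ else 0 := ⟨_, fun _ _ => rfl⟩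
  have hfin : ∀ m, {β : Fin 3 →₀ ℕ | β.degree = d m}.Finite := by
    intro m
    refine Set.Finite.subset (Finset.finite_toSet (Finset.univ.finsuppAntidiag (d m))) ?_
    intro β hβ
    rw [Finset.mem_coe, Finset.mem_finsuppAntidiag]
    refine ⟨?_, Finset.subset_univ _⟩
    rw [← Finsupp.degree_eq_sum]
    exact hβ
  have hcoef : ∀ m β, coeff β (∑ γ ∈ (hfin m).toFinset, monomial γ (c m γ)) = c m β := by
    intro m β
    rw [coeff_sum]
    simp only [coeff_monomial]
    rw [Finset.sum_ite_eq']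
    split_ifs with h
    · rfl
    · rw [hc, dif_neg]
      rwa [Set.Finite.mem_toFinset] at h
  refine ⟨fun m => ∑ γ ∈ (hfin m).toFinset, monomial γ (c m γ), fun m => ?_, ?_⟩
  · refine IsHomogeneous.sum _ _ _ fun γ hγ => ?_
    rw [Set.Finite.mem_toFinset] at hγ
    exact isHomogeneous_monomial _ hγ
  · unfold Generic
    have h1 : (fun i : Σ m : Fin r, {β : Fin 3 →₀ ℕ // β.degree = d m} =>
        coeff i.2.1 (∑ γ ∈ (hfin i.1).toFinset, monomial γ (c i.1 γ))) = a := by
      funext i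
      rw [hcoef, hc, dif_pos i.2.2]
    rw [h1]
    exact ha

end Pool.Agent.GKR
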