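import Pool.Agent.GKR.Lem

/-!
# GKR Hess: the product of a very general family of forms has normal crossings, in terms of second derivatives
-/

set_option autoImplicit false

open MvPolynomial

namespace Pool.Agent.GKR

variable {r : ℕ} {d : Fin r → ℕ} {F : Fin r → MvPolynomial (Fin 3) ℂ}

/-- the second derivatives of a product at a common zero of two factors -/
theorem pderiv_two {A B H : MvPolynomial (Fin 3) ℂ} {x : Fin 3 → ℂ} (hA : eval x A = 0) (hB : eval x B = 0) (k l : Fin 3) :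
    eval x (pderiv k (pderiv l (A * B * H))) =
      eval x H * (eval x (pderiv k A) * eval x (pderiv l B) + eval x (pderiv l A) * eval x (pderiv k B)) := by
  simp only [pderiv_mul, map_add, map_mul, hA, hB]
  ring

theorem pderiv_one' {A H : MvPolynomial (Fin 3) ℂ} {x : Fin 3 → ℂ} (hA : eval x A = 0) (k : Fin 3) :
    eval x (pderiv k (A * H)) = eval x H * eval x (pderiv k A) := by
  simp only [pderiv_mul, map_add, map_mul, hA]
  ring

/-- two independent covectors of `ℂ³` have a nonzero cross product -/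
theorem cross_ne {a b : Fin 3 → ℂ} (hab : ∀ s t : ℂ, (∀ j, s * a j + t * b j = 0) → s = 0 ∧ t = 0) :
    ∃ o, (![a 1 * b 2 - a 2 * b 1, a 2 * b 0 - a 0 * b 2, a 0 * b 1 - a 1 * b 0] : Fin 3 → ℂ) o ≠ 0 := by
  by_contra hcon
  push Not at hcon
  have h0 : a 1 * b 2 - a 2 * b 1 = 0 := hcon 0
  have h1 : a 2 * b 0 - a 0 * b 2 = 0 := hcon 1
  have h2 : a 0 * b 1 - a 1 * b 0 = 0 := hcon 2
  have h3 : ∀ i j, b j * a i + -a j * b i = 0 := by
    intro i j
    fin_cases i <;> fin_cases j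
    · show b 0 * a 0 + -a 0 * b 0 = 0
      ring
    · show b 1 * a 0 + -a 1 * b 0 = 0
      linear_combination h2
    · show b 2 * a 0 + -a 2 * b 0 = 0
      linear_combination -h1
    · show b 0 * a 1 + -a 0 * b 1 = 0
      linear_combination -h2
    · show b 1 * a 1 + -a 1 * b 1 = 0
      ring
    · show b 2 * a 1 + -a 2 * b 1 = 0
      linear_combination h0
    · show b 0 * a 2 + -a 0 * b 2 = 0
      linear_combination h1
    · show b 1 * a 2 + -a 1 * b 2 = 0
      linear_combination -h0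
    · show b 2 * a 2 + -a 2 * b 2 = 0
      ring
  have hb0 : ∀ j, b j = 0 := fun j => (hab (b j) (-a j) fun i => h3 i j).1
  have h4 := (hab 0 1 fun i => by rw [hb0 i]; ring).2
  exact one_ne_zero h4

theorem cross_par {a b y : Fin 3 → ℂ} (h1 : ∑ j, y j * a j = 0) (h2 : ∑ j, y j * b j = 0) (i j : Fin 3) :
    y i * (![a 1 * b 2 - a 2 * b 1, a 2 * b 0 - a 0 * b 2, a 0 * b 1 - a 1 * b 0] : Fin 3 → ℂ) j =
      y j * (![a 1 * b 2 - a 2 * b 1, a 2 * b 0 - a 0 * b 2, a 0 * b 1 - a 1 * b 0] : Fin 3 → ℂ) i := by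
  rw [Fin.sum_univ_three] at h1 h2
  fin_cases i <;> fin_cases j
  · rfl
  · show y 0 * (a 2 * b 0 - a 0 * b 2) = y 1 * (a 1 * b 2 - a 2 * b 1)
    linear_combination a 2 * h2 - b 2 * h1
  · show y 0 * (a 0 * b 1 - a 1 * b 0) = y 2 * (a 1 * b 2 - a 2 * b 1)
    linear_combination b 1 * h1 - a 1 * h2
  · show y 1 * (a 1 * b 2 - a 2 * b 1) = y 0 * (a 2 * b 0 - a 0 * b 2)
    linear_combination b 2 * h1 - a 2 * h2
  · rfl
  · show y 1 * (a 0 * b 1 - a 1 * b 0) = y 2 * (a 2 * b 0 - a 0 * b 2)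
    linear_combination a 0 * h2 - b 0 * h1
  · show y 2 * (a 1 * b 2 - a 2 * b 1) = y 0 * (a 0 * b 1 - a 1 * b 0)
    linear_combination a 1 * h2 - b 1 * h1
  · show y 2 * (a 2 * b 0 - a 0 * b 2) = y 1 * (a 0 * b 1 - a 1 * b 0)
    linear_combination b 0 * h1 - a 0 * h2
  · rfl

/-- two independent covectors of `ℂ³`: the kernel has dimension one -/
theorem kernel_one {a b x v : Fin 3 → ℂ} (hx : x ≠ 0) (hab : ∀ s t : ℂ, (∀ j, s * a j + t * b j = 0) → s = 0 ∧ t = 0)
    (hxa : ∑ j, x j * a j = 0) (hxb : ∑ j, x j * b j = 0) (hva : ∑ j, v j * a j = 0) (hvb : ∑ j, v j * b j = 0) : ∃ c : ℂ, v = c • x := by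
  obtain ⟨o, ho⟩ := cross_ne hab
  obtain ⟨m, hm⟩ : ∃ m : Fin 3 → ℂ, m = ![a 1 * b 2 - a 2 * b 1, a 2 * b 0 - a 0 * b 2, a 0 * b 1 - a 1 * b 0] := ⟨_, rfl⟩
  have hX := cross_par hxa hxb
  have hV := cross_par hva hvb
  rw [← hm] at ho hX hV
  have hxo : x o ≠ 0 := by
    intro h0
    apply hx
    funext i
    have h1 := hX i o
    rw [h0, zero_mul] at h1
    exact (mul_eq_zero.1 h1).resolve_right ho
  refine ⟨v o / x o, funext fun i => ?_⟩
  rw [Pi.smul_apply, smul_eq_mul, div_mul_eq_mul_div, eq_div_iff hxo]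
  have h1 : m o * (v i * x o) = m o * (v o * x i) := by
    linear_combination x o * hV i o - v o * hX i o
  exact mul_left_cancel₀ ho h1

/-- a covector with a prescribed pairing -/
theorem exists_dual {a b : Fin 3 → ℂ} (hab : ∀ s t : ℂ, (∀ j, s * a j + t * b j = 0) → s = 0 ∧ t = 0) (α β : ℂ) :
    ∃ w : Fin 3 → ℂ, ∑ j, w j * a j = α ∧ ∑ j, w j * b j = β := by
  obtain ⟨o, ho⟩ := cross_ne hab
  simp only [Fin.sum_univ_three]
  fin_cases o
  · have h1 : a 1 * b 2 - a 2 * b 1 ≠ 0 := ho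
    refine ⟨![0, (α * b 2 - β * a 2) / (a 1 * b 2 - a 2 * b 1), (β * a 1 - α * b 1) / (a 1 * b 2 - a 2 * b 1)], ?_, ?_⟩
    · show 0 * a 0 + (α * b 2 - β * a 2) / (a 1 * b 2 - a 2 * b 1) * a 1 + (β * a 1 - α * b 1) / (a 1 * b 2 - a 2 * b 1) * a 2 = α
      rw [zero_mul, zero_add, div_mul_eq_mul_div, div_mul_eq_mul_div, ← add_div, div_eq_iff h1]
      ring
    · show 0 * b 0 + (α * b 2 - β * a 2) / (a 1 * b 2 - a 2 * b 1) * b 1 + (β * a 1 - α * b 1) / (a 1 * b 2 - a 2 * b 1) * b 2 = β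
      rw [zero_mul, zero_add, div_mul_eq_mul_div, div_mul_eq_mul_div, ← add_div, div_eq_iff h1]
      ring
  · have h1 : a 2 * b 0 - a 0 * b 2 ≠ 0 := ho
    refine ⟨![(β * a 2 - α * b 2) / (a 2 * b 0 - a 0 * b 2), 0, (α * b 0 - β * a 0) / (a 2 * b 0 - a 0 * b 2)], ?_, ?_⟩
    · show (β * a 2 - α * b 2) / (a 2 * b 0 - a 0 * b 2) * a 0 + 0 * a 1 + (α * b 0 - β * a 0) / (a 2 * b 0 - a 0 * b 2) * a 2 = α
      rw [zero_mul, add_zero, div_mul_eq_mul_div, div_mul_eq_mul_div, ← add_div, div_eq_iff h1]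
      ring
    · show (β * a 2 - α * b 2) / (a 2 * b 0 - a 0 * b 2) * b 0 + 0 * b 1 + (α * b 0 - β * a 0) / (a 2 * b 0 - a 0 * b 2) * b 2 = β
      rw [zero_mul, add_zero, div_mul_eq_mul_div, div_mul_eq_mul_div, ← add_div, div_eq_iff h1]
      ring
  · have h1 : a 0 * b 1 - a 1 * b 0 ≠ 0 := ho
    refine ⟨![(α * b 1 - β * a 1) / (a 0 * b 1 - a 1 * b 0), (β * a 0 - α * b 0) / (a 0 * b 1 - a 1 * b 0), 0], ?_, ?_⟩
    · show (α * b 1 - β * a 1) / (a 0 * b 1 - a 1 * b 0) * a 0 + (β * a 0 - α * b 0) / (a 0 * b 1 - a 1 * b 0) * a 1 + 0 * a 2 = α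
      rw [zero_mul, add_zero, div_mul_eq_mul_div, div_mul_eq_mul_div, ← add_div, div_eq_iff h1]
      ring
    · show (α * b 1 - β * a 1) / (a 0 * b 1 - a 1 * b 0) * b 0 + (β * a 0 - α * b 0) / (a 0 * b 1 - a 1 * b 0) * b 1 + 0 * b 2 = β
      rw [zero_mul, add_zero, div_mul_eq_mul_div, div_mul_eq_mul_div, ← add_div, div_eq_iff h1]
      ring

/-- **Normal crossings of very general families.**  At a singular point `x` of the curve `∏ F m = 0` the second derivative has the kernel `ℂ x`. -/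
theorem Generic.nodal (hF : Generic d F) (hom : ∀ m, (F m).IsHomogeneous (d m)) (pos : ∀ m, 1 ≤ d m) {x : Fin 3 → ℂ} (hx : x ≠ 0)
    (h0 : eval x (∏ m, F m) = 0) (hgr : ∀ k, eval x (pderiv k (∏ m, F m)) = 0) (v : Fin 3 → ℂ)
    (hv : ∀ w : Fin 3 → ℂ, ∑ k, ∑ l, v k * w l * eval x (pderiv k (pderiv l (∏ m, F m))) = 0) : ∃ b : ℂ, v = b • x := by
  classical
  rw [map_prod, Finset.prod_eq_zero_iff] at h0
  obtain ⟨m, -, hm⟩ := h0
  have hprod : ∏ l, F l = F m * ∏ l ∈ Finset.univ.erase m, F l := (Finset.mul_prod_erase _ _ (Finset.mem_univ m)).symm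
  by_cases hn : ∃ n, n ≠ m ∧ eval x (F n) = 0
  · obtain ⟨n, hnm, hn⟩ := hn
    have hprod2 : ∏ l ∈ Finset.univ.erase m, F l = F n * ∏ l ∈ (Finset.univ.erase m).erase n, F l :=
      (Finset.mul_prod_erase _ _ (Finset.mem_erase.2 ⟨hnm, Finset.mem_univ _⟩)).symm
    obtain ⟨H, hH⟩ : ∃ H, H = ∏ l ∈ (Finset.univ.erase m).erase n, F l := ⟨_, rfl⟩
    have hH0 : eval x H ≠ 0 := by
      rw [hH, map_prod, Finset.prod_ne_zero_iff]
      intro l hl hl0
      rw [Finset.mem_erase, Finset.mem_erase] at hl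
      exact hF.no_triple hom hl.2.1 hl.1 hnm.symm hx ⟨hl0, hm, hn⟩
    rw [hprod, hprod2, ← hH, ← mul_assoc] at hv
    have hab : ∀ s t : ℂ, (∀ j, s * eval x (pderiv j (F m)) + t * eval x (pderiv j (F n)) = 0) → s = 0 ∧ t = 0 :=
      fun s t hst => hF.nc₂ hom pos hnm.symm hx (Or.inl hm) hst
    have he : ∀ q, eval x (F q) = 0 → ∑ j, x j * eval x (pderiv j (F q)) = 0 := fun q hq => by
      rw [euler_eval (hom q), hq, mul_zero]
    have hpair : ∀ w : Fin 3 → ℂ, (∑ k, v k * eval x (pderiv k (F m))) * (∑ l, w l * eval x (pderiv l (F n))) +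
        (∑ l, w l * eval x (pderiv l (F m))) * (∑ k, v k * eval x (pderiv k (F n))) = 0 := by
      intro w
      have h1 := hv w
      simp only [pderiv_two hm hn] at h1
      have h2 : eval x H * ((∑ k, v k * eval x (pderiv k (F m))) * (∑ l, w l * eval x (pderiv l (F n))) +
        (∑ l, w l * eval x (pderiv l (F m))) * (∑ k, v k * eval x (pderiv k (F n)))) = 0 := by
        rw [← h1]
        simp only [Fin.sum_univ_three]
        ring
      exact (mul_eq_zero.1 h2).resolve_left hH0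
    obtain ⟨w₁, h1, h2⟩ := exists_dual hab 1 0
    obtain ⟨w₂, h3, h4⟩ := exists_dual hab 0 1
    have e1 := hpair w₁
    have e2 := hpair w₂
    rw [h1, h2, mul_zero, zero_add, one_mul] at e1
    rw [h3, h4, mul_one, zero_mul, add_zero] at e2
    exact kernel_one hx hab (he m hm) (he n hn) e2 e1
  · exfalso
    push Not at hn
    obtain ⟨H, hH⟩ : ∃ H, H = ∏ l ∈ Finset.univ.erase m, F l := ⟨_, rfl⟩
    have hH0 : eval x H ≠ 0 := by
      rw [hH, map_prod, Finset.prod_ne_zero_iff]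
      intro l hl
      exact hn l (Finset.mem_erase.1 hl).1
    rw [hprod, ← hH] at hgr
    have h1 : ∀ k, eval x (pderiv k (F m)) = 0 := by
      intro k
      have h2 := hgr k
      rw [pderiv_one' hm] at h2
      exact (mul_eq_zero.1 h2).resolve_left hH0
    have h2 := hF.nc hom hx (a := fun l => if l = m then 1 else 0) (fun l => ?_) (fun j => ?_)
    · have h3 := congrFun h2 m
      simp only [if_pos, Pi.zero_apply] at h3
      exact one_ne_zero h3
    · by_cases hl : l = m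
      · subst hl
        exact Or.inr hm
      · simp only [if_neg hl]
        exact Or.inl trivial
    · refine Finset.sum_eq_zero fun l _ => ?_
      by_cases hl : l = m
      · subst hl
        rw [h1, mul_zero]
      · simp only [if_neg hl, zero_mul]

end Pool.Agent.GKR
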