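import Pool.Agent.GKR.End
import Pool.Agent.GKR.Cur
import Pool.Agent.GKR.Hess
import Pool.Agent.TC.Meet
import Pool.Agent.Results.MP_64ff02_ag.SmoothSurfaces

/-!
# GKR Fin: the exceptional set of the complement of a very general family of plane curves is empty

If the four properties hold for some exceptional set then they hold for the empty one.
-/

set_option autoImplicit false

open MvPolynomial
open Pool.Agent.H17 (PN VanishesAt ZariskiClosedIn HolomorphicInto vanishesAt_mk_iff)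
open Pool.Agent.H17LG.Variety (FunField IsLogGeneralType)
open Pool.Agent.H62.FC (Homog)
open Pool.Agent.H62.SA (locVar OnBd IsProperMap)
open Pool.Agent.TC (plane_dim)
open Pool.Agent.Results.MP_64ff02_ag.SmoothSurfaces (FourProperties IsProperClosed StronglyModulo DegenerateOrderTwo degenerate_of_mem)

namespace Pool.Agent.GKR

theorem homog_bot {N : ℕ} : Homog (⊥ : Ideal (MvPolynomial (Fin (N + 1)) ℂ)) := by
  intro p hp n
  rw [Ideal.mem_bot] at hp ⊢
  rw [hp, map_zero]

theorem zariskiClosedIn_empty {N : ℕ} (U : Set (PN N)) : ZariskiClosedIn U (∅ : Set (PN N)) := by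
  refine ⟨{1}, ?_, ?_⟩
  · rintro P' hP'
    rw [Set.mem_singleton_iff.1 hP']
    exact ⟨0, isHomogeneous_one _ _⟩
  · ext x
    simp only [Set.mem_empty_iff_false, false_iff, Set.mem_ofPred_eq, not_and]
    intro _ h
    have h1 := h 1 rfl
    unfold VanishesAt at h1
    rw [map_one] at h1
    exact one_ne_zero h1

/-- the complement of a plane curve is affine -/
theorem proper_plane {D : MvPolynomial (Fin 3) ℂ} {e : ℕ} (hD : D.IsHomogeneous e) (he : 1 ≤ e) :
    IsProperMap (⊥ : Ideal (MvPolynomial (Fin 3) ℂ)) (fun _ : Fin 1 => D) (fun _ => Fin.cons D fun i : Fin 3 => X i ^ e) (fun _ => e) where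
  hom m j := by
    refine Fin.cases ?_ (fun i => ?_) j
    · rw [Fin.cons_zero]
      exact hD
    · rw [Fin.cons_succ]
      have := (isHomogeneous_X ℂ i).pow e
      rwa [one_mul] at this
  zero m := rfl
  rel m k j := by
    obtain rfl : m = k := Subsingleton.elim _ _
    rw [sub_self]
    exact Ideal.zero_mem _
  noZero x _ := by
    obtain ⟨i, hi⟩ : ∃ i, x.rep i ≠ 0 := by
      by_contra hcon
      push Not at hcon
      exact x.rep_nonzero (funext hcon)
    refine ⟨0, i.succ, fun h2 => ?_⟩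
    unfold VanishesAt at h2
    rw [Fin.cons_succ, map_pow, eval_X] at h2
    exact hi (pow_eq_zero_iff (by omega) |>.1 h2)

variable {r : ℕ} {d : Fin r → ℕ} {G : Fin r → MvPolynomial (Fin 3) ℂ}

/-- **Very general families: the exceptional set is empty.** -/
theorem four_empty (hr : 2 ≤ r) (hd : ∀ m, 1 ≤ d m) (h5 : 5 ≤ ∑ m, d m) (hG : ∀ m, (G m).IsHomogeneous (d m)) (hgen : Generic d G)
    {Ξ : Set (PN 2)} (hΞ : FourProperties (⊥ : Ideal (MvPolynomial (Fin 3) ℂ)) (fun _ : Fin 1 => ∏ m, G m) Ξ) :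
    FourProperties (⊥ : Ideal (MvPolynomial (Fin 3) ℂ)) (fun _ : Fin 1 => ∏ m, G m) ∅ := by
  have hP : Homog (⊥ : Ideal (MvPolynomial (Fin 3) ℂ)) := homog_bot
  have hgt := hΞ.logGeneralType 2 (by norm_num) plane_dim
  have hD : (∏ m, G m).IsHomogeneous (∑ m, d m) := IsHomogeneous.prod _ _ _ fun m _ => hG m
  have hmain := (Pool.Agent.Results.MP_64ff02_ag.SmoothSurfaces.result (⊥ : Ideal (MvPolynomial (Fin 3) ℂ)) (fun _ : Fin 1 => ∏ m, G m) _ _ hP plane_dim
    (fun x _ _ => (Submodule.finrank_le _).trans (by rw [Module.finrank_fin_fun])) (proper_plane hD (by omega)) hgt).1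
  have h51 : (IsProperClosed (locVar (⊥ : Ideal (MvPolynomial (Fin 3) ℂ)) (fun _ : Fin 1 => ∏ m, G m)) ∅ ∧
      StronglyModulo (⊥ : Ideal (MvPolynomial (Fin 3) ℂ)) (fun _ : Fin 1 => ∏ m, G m) ∅ ∧
      DegenerateOrderTwo (⊥ : Ideal (MvPolynomial (Fin 3) ℂ)) (fun _ : Fin 1 => ∏ m, G m)) ↔
      FourProperties (⊥ : Ideal (MvPolynomial (Fin 3) ℂ)) (fun _ : Fin 1 => ∏ m, G m) ∅ := (hmain ∅).1.out 4 0
  refine h51.1 ⟨⟨zariskiClosedIn_empty _, ?_⟩, ?_, fun f hf _ hfX hfn =>
    degenerate_of_mem hΞ.properClosed (hΞ.brody f hf hfX hfn)⟩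
  · -- `U` is not empty
    intro h2
    obtain ⟨Q', D, hQ', ⟨x, hx, -⟩, -⟩ := (hmain Ξ).2 hΞ
    have h3 : x ∈ (∅ : Set (PN 2)) := h2 ▸ hx
    exact h3
  · -- closed subvarieties
    intro Q _ hQ hPQ hsub w hw hz'
    obtain ⟨x, hx, -⟩ := Set.not_subset.1 hsub
    have hX : ∃ i, (X i : MvPolynomial (Fin 3) ℂ) ∉ Q := by
      by_contra hcon
      push Not at hcon
      apply x.rep_nonzero
      funext i
      have h1 : VanishesAt (X i : MvPolynomial (Fin 3) ℂ) x := hx.1 _ (hcon i) 1 (isHomogeneous_X ℂ i)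
      have h2 : eval x.rep (X i : MvPolynomial (Fin 3) ℂ) = 0 := h1
      rw [eval_X] at h2
      exact h2
    by_cases hle : Q ≤ ⊥
    · have hEq : (⊥ : Ideal (MvPolynomial (Fin 3) ℂ)) = Q := le_antisymm hPQ hle
      subst hEq
      have h1 : w ≤ 2 := Pool.Agent.H62.FC.trdeg_mono hP hP le_rfl plane_dim hz'
      have h2 : 2 ≤ w := Pool.Agent.H62.FC.trdeg_mono hP hP le_rfl hz' plane_dim
      obtain rfl : w = 2 := le_antisymm h1 h2
      exact hgt
    · have hlt : w < 2 := Pool.Agent.H17BP.trdeg_lt hP hQ hPQ hle hX plane_dim hz'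
      obtain rfl : w = 1 := by omega
      refine curve_lgt_r ⟨0, by omega⟩ hG hd (gk_alg_r hr hgen hG hd h5) Q hQ (fun m hm => ?_) hz'
      obtain ⟨l, hl⟩ := hx.2
      apply hl
      have h4 : VanishesAt (G m) x := hx.1 _ hm (d m) (hG m)
      unfold VanishesAt at h4 ⊢
      rw [map_prod]
      exact Finset.prod_eq_zero (Finset.mem_univ m) h4

end Pool.Agent.GKR
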