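import Pool.Agent.TC.GKDer
import Pool.Agent.TC.GKChain

/-!
# GKR Gen: families of forms whose coefficients are algebraically independent over `ℚ`
-/

set_option autoImplicit false

open MvPolynomial
open Pool.Agent.TC (mD coeff_mD der_aeval exists_derivation)

namespace Pool.Agent.GKR

/-- The coefficients of the forms `F m` (of degrees `d m`) are algebraically independent over `ℚ`. -/
def Generic {r : ℕ} (d : Fin r → ℕ) (F : Fin r → MvPolynomial (Fin 3) ℂ) : Prop :=
  AlgebraicIndependent ℚ fun i : Σ m : Fin r, {β : Fin 3 →₀ ℕ // β.degree = d m} => coeff i.2.1 (F i.1)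

variable {r : ℕ} {d : Fin r → ℕ} {F : Fin r → MvPolynomial (Fin 3) ℂ}

/-- every family of forms is the derivative of the family for some derivation of `ℂ` -/
theorem Generic.exists_der (hF : Generic d F) (hom : ∀ m, (F m).IsHomogeneous (d m)) (H : Fin r → MvPolynomial (Fin 3) ℂ)
    (hH : ∀ m, (H m).IsHomogeneous (d m)) : ∃ D : Derivation ℚ ℂ ℂ, ∀ m, mD D (F m) = H m := by
  obtain ⟨D, hD⟩ := exists_derivation hF fun i => coeff i.2.1 (H i.1)
  refine ⟨D, fun m => ?_⟩
  ext β
  rw [coeff_mD]
  by_cases hβ : β.degree = d m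
  · exact hD ⟨m, β, hβ⟩
  · rw [(hom m).coeff_eq_zero hβ, (hH m).coeff_eq_zero hβ, map_zero]

/-- the gradients of the forms which vanish at a point are linearly independent -/
theorem Generic.nc (hF : Generic d F) (hom : ∀ m, (F m).IsHomogeneous (d m)) {p : Fin 3 → ℂ} (hp : p ≠ 0) {a : Fin r → ℂ}
    (h0 : ∀ m, a m = 0 ∨ eval p (F m) = 0) (ha : ∀ j, ∑ m, a m * eval p (pderiv j (F m)) = 0) : a = 0 := by
  classical
  obtain ⟨o, ho⟩ : ∃ o, p o ≠ 0 := by
    by_contra hcon
    push Not at hcon
    exact hp (funext hcon)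
  funext m
  obtain ⟨D, hD⟩ := hF.exists_der hom (fun l => if l = m then X o ^ d l else 0) (fun l => by
    split_ifs
    · have := (isHomogeneous_X ℂ o).pow (d l)
      rwa [one_mul] at this
    · exact isHomogeneous_zero _ _ _)
  have h1 : ∀ l, a l * (eval p (mD D (F l)) + ∑ j, eval p (pderiv j (F l)) * D (p j)) = 0 := by
    intro l
    rcases h0 l with h | h
    · rw [h, zero_mul]
    · have h2 := der_aeval D (δ := fun z => D z) (fun a b => map_add D a b) (fun a b => by
        rw [Derivation.leibniz, smul_eq_mul, smul_eq_mul]) (fun c => rfl) (F l) p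
      simp only [MvPolynomial.aeval_eq_eval] at h2
      rw [← h2, h, map_zero, mul_zero]
  have h2 : ∑ l, a l * eval p (mD D (F l)) = 0 := by
    have h3 : ∑ l, a l * ∑ j, eval p (pderiv j (F l)) * D (p j) = 0 := by
      simp only [Finset.mul_sum]
      rw [Finset.sum_comm]
      refine Finset.sum_eq_zero fun j _ => ?_
      have h4 := ha j
      calc ∑ l, a l * (eval p (pderiv j (F l)) * D (p j)) = (∑ l, a l * eval p (pderiv j (F l))) * D (p j) := by
            rw [Finset.sum_mul]
            refine Finset.sum_congr rfl fun l _ => ?_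
            ring
        _ = 0 := by rw [h4, zero_mul]
    have h4 : ∑ l, a l * (eval p (mD D (F l)) + ∑ j, eval p (pderiv j (F l)) * D (p j)) = 0 := Finset.sum_eq_zero fun l _ => h1 l
    simp only [mul_add, Finset.sum_add_distrib] at h4
    rwa [h3, add_zero] at h4
  rw [Finset.sum_eq_single m] at h2
  · rw [hD] at h2
    simp only [if_pos, map_pow, eval_X] at h2
    exact (mul_eq_zero.1 h2).resolve_right (pow_ne_zero _ ho)
  · intro l _ hl
    rw [hD]
    simp only [if_neg hl, map_zero, mul_zero]
  · intro h
    exact absurd (Finset.mem_univ _) h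

theorem euler_eval {n : ℕ} {G : MvPolynomial (Fin 3) ℂ} (hG : G.IsHomogeneous n) (p : Fin 3 → ℂ) :
    ∑ j, p j * eval p (pderiv j G) = n * eval p G := by
  have h1 := congrArg (eval p) hG.sum_X_mul_pderiv
  rw [map_sum, map_nsmul, nsmul_eq_mul] at h1
  rw [← h1]
  refine Finset.sum_congr rfl fun j _ => ?_
  rw [map_mul, eval_X]

/-- two of the curves: at a point of one of them the gradients are linearly independent -/
theorem Generic.nc₂ (hF : Generic d F) (hom : ∀ m, (F m).IsHomogeneous (d m)) (pos : ∀ m, 1 ≤ d m) {m n : Fin r} (hmn : m ≠ n)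
    {p : Fin 3 → ℂ} (hp : p ≠ 0) (h0 : eval p (F m) = 0 ∨ eval p (F n) = 0) {a b : ℂ}
    (hab : ∀ j, a * eval p (pderiv j (F m)) + b * eval p (pderiv j (F n)) = 0) : a = 0 ∧ b = 0 := by
  classical
  have h1 : a * (d m * eval p (F m)) + b * (d n * eval p (F n)) = 0 := by
    rw [← euler_eval (hom m), ← euler_eval (hom n), Finset.mul_sum, Finset.mul_sum, ← Finset.sum_add_distrib]
    refine Finset.sum_eq_zero fun j _ => ?_
    linear_combination p j * hab j
  have hd : ∀ m, (d m : ℂ) ≠ 0 := fun m => by
    have := pos m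
    exact_mod_cast (by omega : d m ≠ 0)
  have h2 : (a = 0 ∨ eval p (F m) = 0) ∧ (b = 0 ∨ eval p (F n) = 0) := by
    rcases h0 with h0 | h0
    · rw [h0, mul_zero, mul_zero, zero_add] at h1
      refine ⟨Or.inr h0, ?_⟩
      rcases mul_eq_zero.1 h1 with h2 | h2
      · exact Or.inl h2
      · exact Or.inr ((mul_eq_zero.1 h2).resolve_left (hd n))
    · rw [h0, mul_zero, mul_zero, add_zero] at h1
      refine ⟨?_, Or.inr h0⟩
      rcases mul_eq_zero.1 h1 with h2 | h2
      · exact Or.inl h2
      · exact Or.inr ((mul_eq_zero.1 h2).resolve_left (hd m))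
  have h3 := hF.nc hom hp (a := fun l => if l = m then a else if l = n then b else 0) (fun l => ?_) (fun j => ?_)
  · have h4 := congrFun h3 m
    have h5 := congrFun h3 n
    simp only [if_pos, if_neg hmn.symm, Pi.zero_apply] at h4 h5
    exact ⟨h4, h5⟩
  · by_cases h4 : l = m
    · subst h4
      simp only [if_pos]
      exact h2.1
    · by_cases h5 : l = n
      · subst h5
        simp only [if_neg h4, if_pos]
        exact h2.2
      · simp only [if_neg h4, if_neg h5]
        exact Or.inl trivial
  · refine Eq.trans ?_ (hab j)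
    rw [← Finset.sum_subset (Finset.subset_univ ({m, n} : Finset (Fin r))), Finset.sum_pair hmn]
    · simp only [if_pos, if_neg hmn.symm]
    · intro l _ hl
      rw [Finset.mem_insert, Finset.mem_singleton, not_or] at hl
      simp only [if_neg hl.1, if_neg hl.2, zero_mul]

/-- no three of the curves have a common point -/
theorem Generic.no_triple (hF : Generic d F) (hom : ∀ m, (F m).IsHomogeneous (d m)) {l m n : Fin r} (hlm : l ≠ m) (hln : l ≠ n)
    (hmn : m ≠ n) {p : Fin 3 → ℂ} (hp : p ≠ 0) : ¬ (eval p (F l) = 0 ∧ eval p (F m) = 0 ∧ eval p (F n) = 0) := by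
  classical
  rintro ⟨hl, hm, hn⟩
  let A : Matrix (Fin 3) (Fin 3) ℂ := Matrix.of ![fun j => eval p (pderiv j (F l)), fun j => eval p (pderiv j (F m)), fun j => eval p (pderiv j (F n))]
  have h1 : A.mulVec p = 0 := by
    have h2 : ∀ {q : Fin r}, eval p (F q) = 0 → ∑ j, eval p (pderiv j (F q)) * p j = 0 := by
      intro q hq
      have h3 := euler_eval (hom q) p
      rw [hq, mul_zero] at h3
      rw [← h3]
      exact Finset.sum_congr rfl fun j _ => mul_comm _ _
    funext i
    fin_cases i
    · exact h2 hl
    · exact h2 hm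
    · exact h2 hn
  have h2 : A.det = 0 := Matrix.exists_mulVec_eq_zero_iff.1 ⟨p, hp, h1⟩
  obtain ⟨v, hv, hv'⟩ := Matrix.exists_vecMul_eq_zero_iff.2 h2
  have h3 := hF.nc hom hp (a := fun q => if q = l then v 0 else if q = m then v 1 else if q = n then v 2 else 0) (fun q => ?_) (fun j => ?_)
  · apply hv
    funext i
    fin_cases i
    · have h4 := congrFun h3 l
      simpa using h4
    · have h4 := congrFun h3 m
      simpa [hlm.symm] using h4
    · have h4 := congrFun h3 n
      simpa [hln.symm, hmn.symm] using h4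
  · by_cases h4 : q = l
    · subst h4
      exact Or.inr hl
    · by_cases h5 : q = m
      · subst h5
        exact Or.inr hm
      · by_cases h6 : q = n
        · subst h6
          exact Or.inr hn
        · left
          simp only [if_neg h4, if_neg h5, if_neg h6]
  · have h4 := congrFun hv' j
    have h5 : v 0 * eval p (pderiv j (F l)) + v 1 * eval p (pderiv j (F m)) + v 2 * eval p (pderiv j (F n)) = 0 := by
      rw [← Pi.zero_apply (M := fun _ : Fin 3 => ℂ) j, ← h4]
      simp only [Matrix.vecMul, dotProduct, Fin.sum_univ_three]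
      rfl
    refine Eq.trans ?_ h5
    rw [← Finset.sum_subset (Finset.subset_univ ({l, m, n} : Finset (Fin r)))]
    · rw [Finset.sum_insert (by simp [hlm, hln]), Finset.sum_pair hmn]
      simp only [if_pos, if_neg hlm.symm, if_neg hln.symm, if_neg hmn.symm]
      ring
    · intro q _ hq
      rw [Finset.mem_insert, Finset.mem_insert, Finset.mem_singleton, not_or, not_or] at hq
      simp only [if_neg hq.1, if_neg hq.2.1, if_neg hq.2.2, zero_mul]

end Pool.Agent.GKR
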