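import Pool.Agent.GKR.Two
import Pool.Agent.GKR.Gen

/-!
# GKR Lem: logarithmic vectors along a rational curve with two places on the curves `F m = 0`
-/

set_option autoImplicit false

open Polynomial
open Pool.Agent.TC (gr Crv LogV det3 coeff_top)

namespace Pool.Agent.GKR

variable {r : ℕ} {d k : Fin r → ℕ} {c : Fin r → ℂ} {F : Fin r → MvPolynomial (Fin 3) ℂ} {x : Fin 3 → ℂ[X]} {M : ℕ}

/-- a rational curve with at most two places on the curves `F m = 0` -/
structure CrvR (d k : Fin r → ℕ) (c : Fin r → ℂ) (F : Fin r → MvPolynomial (Fin 3) ℂ) (x : Fin 3 → ℂ[X]) (M : ℕ) : Prop where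
  hom : ∀ m, (F m).IsHomogeneous (d m)
  pos : ∀ m, 1 ≤ d m
  eq : ∀ m, MvPolynomial.aeval x (F m) = C (c m) * X ^ k m
  ne : ∀ m, c m ≠ 0
  deg : ∀ i, (x i).natDegree ≤ M
  low : ∃ i, (x i).coeff 0 ≠ 0
  top : ∃ i, (x i).coeff M ≠ 0
  gen : Generic d F

/-- logarithmic vectors of weight `e` -/
def LogR (F : Fin r → MvPolynomial (Fin 3) ℂ) (x : Fin 3 → ℂ[X]) (M e : ℕ) (w : Fin 3 → ℂ[X]) : Prop :=
  (∀ i, (w i).natDegree ≤ e) ∧ ∀ m, ∃ g : ℂ[X], g.natDegree ≤ e - M ∧ gr x (F m) w = g * MvPolynomial.aeval x (F m)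

theorem CrvR.pair (h : CrvR d k c F x M) {m n : Fin r} (hmn : m ≠ n) : Crv ![d m, d n] ![k m, k n] ![c m, c n] ![F m, F n] x M where
  hom i := by
    fin_cases i
    · exact h.hom m
    · exact h.hom n
  pos i := by
    fin_cases i
    · exact h.pos m
    · exact h.pos n
  eq i := by
    fin_cases i
    · exact h.eq m
    · exact h.eq n
  ne i := by
    fin_cases i
    · exact h.ne m
    · exact h.ne n
  deg := h.deg
  low := h.low
  top := h.top
  nc p hp h0 a ha := by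
    have h1 := h.gen.nc₂ h.hom h.pos hmn hp (a := a 0) (b := a 1) h0 fun j => by
      have h2 := ha j
      rw [Fin.sum_univ_two] at h2
      exact h2
    funext i
    fin_cases i
    · exact h1.1
    · exact h1.2

theorem LogR.pair {e : ℕ} {w : Fin 3 → ℂ[X]} (hw : LogR F x M e w) (m n : Fin r) : LogV ![F m, F n] x M e w := by
  refine ⟨hw.1, fun i => ?_⟩
  fin_cases i
  · exact hw.2 m
  · exact hw.2 n

theorem gk_coeff0 (x : Fin 3 → ℂ[X]) (P : MvPolynomial (Fin 3) ℂ) :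
    (MvPolynomial.aeval x P).coeff 0 = MvPolynomial.eval (fun i => (x i).coeff 0) P := by
  have h : ((Polynomial.constantCoeff : ℂ[X] →+* ℂ).comp (MvPolynomial.aeval x : MvPolynomial (Fin 3) ℂ →ₐ[ℂ] ℂ[X]).toRingHom) =
      (MvPolynomial.eval (fun i => (x i).coeff 0) : MvPolynomial (Fin 3) ℂ →+* ℂ) := by
    apply MvPolynomial.ringHom_ext
    · intro r
      simp
    · intro i
      simp
  exact RingHom.congr_fun h P

/-- a set without three different elements is contained in a pair -/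
theorem exists_pair (hr : 2 ≤ r) {P : Fin r → Prop} (h3 : ∀ l m n, l ≠ m → l ≠ n → m ≠ n → P l → P m → P n → False) :
    ∃ m n, m ≠ n ∧ ∀ l, P l → l = m ∨ l = n := by
  have hne : ∀ m : Fin r, ∃ n, m ≠ n := by
    intro m
    by_cases hm : (m : ℕ) = 0
    · exact ⟨⟨1, by omega⟩, fun h => by
        rw [h] at hm
        simp at hm⟩
    · exact ⟨⟨0, by omega⟩, fun h => by
        rw [h] at hm
        simp at hm⟩
  by_cases h1 : ∃ m, P m
  · obtain ⟨m, hm⟩ := h1
    by_cases h2 : ∃ n, n ≠ m ∧ P n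
    · obtain ⟨n, hnm, hn⟩ := h2
      refine ⟨m, n, hnm.symm, fun l hl => ?_⟩
      by_contra hcon
      rw [not_or] at hcon
      exact h3 l m n hcon.1 hcon.2 hnm.symm hl hm hn
    · push Not at h2
      obtain ⟨n, hn⟩ := hne m
      refine ⟨m, n, hn, fun l hl => Or.inl ?_⟩
      by_contra hlm
      exact h2 l hlm hl
  · push Not at h1
    obtain ⟨n, hn⟩ := hne ⟨0, by omega⟩
    exact ⟨_, n, hn, fun l hl => absurd hl (h1 l)⟩

theorem sum_pair {f : Fin r → ℕ} {m n : Fin r} (hmn : m ≠ n) (h : ∀ l, l ≠ m → l ≠ n → f l = 0) : ∑ l, f l = f m + f n := by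
  classical
  rw [← Finset.sum_subset (Finset.subset_univ ({m, n} : Finset (Fin r))), Finset.sum_pair hmn]
  intro l _ hl
  rw [Finset.mem_insert, Finset.mem_singleton, not_or] at hl
  exact h l hl.1 hl.2

theorem CrvR.det3_eq_zero (h : CrvR d k c F x M) (hr : 2 ≤ r) {e₁ e₂ e₃ : ℕ} (he₁ : M ≤ e₁) (he₂ : M ≤ e₂) (he₃ : M ≤ e₃)
    (hlt : e₁ + e₂ + e₃ < (∑ m, d m) * M) {w₁ w₂ w₃ : Fin 3 → ℂ[X]} (h₁ : LogR F x M e₁ w₁) (h₂ : LogR F x M e₂ w₂) (h₃ : LogR F x M e₃ w₃) :
    det3 w₁ w₂ w₃ = 0 := by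
  by_contra hΔ
  have hkd : ∀ m, k m ≤ d m * M := by
    intro m
    have h1 := (coeff_top h.deg (h.hom m)).1
    rw [h.eq m, natDegree_C_mul_X_pow _ _ (h.ne m)] at h1
    exact h1
  -- the order at `0`
  have hlow : ∑ m, k m ≤ (det3 w₁ w₂ w₃).natDegree := by
    have hp : (fun i => (x i).coeff 0) ≠ 0 := by
      obtain ⟨i, hi⟩ := h.low
      exact fun e => hi (congrFun e i)
    have hm : ∀ m, k m ≠ 0 → MvPolynomial.eval (fun i => (x i).coeff 0) (F m) = 0 := by
      intro m hm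
      rw [← gk_coeff0, h.eq m, coeff_C_mul, coeff_X_pow, if_neg (Ne.symm hm), mul_zero]
    obtain ⟨m, n, hmn, hP⟩ := exists_pair hr (P := fun m => k m ≠ 0) fun l m n hlm hln hmn hl hm' hn =>
      h.gen.no_triple h.hom hlm hln hmn hp ⟨hm l hl, hm m hm', hm n hn⟩
    rw [sum_pair hmn fun l hl hl' => by
      by_contra h0
      rcases hP l h0 with h1 | h1
      · exact hl h1
      · exact hl' h1]
    exact Pool.Agent.GKR.low (h.pair hmn) he₁ he₂ he₃ (h₁.pair m n) (h₂.pair m n) (h₃.pair m n) hΔ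
  -- the degree
  have htop : (det3 w₁ w₂ w₃).natDegree + (∑ m, d m) * M ≤ e₁ + e₂ + e₃ + ∑ m, k m := by
    have hp : (fun i => (x i).coeff M) ≠ 0 := by
      obtain ⟨i, hi⟩ := h.top
      exact fun e => hi (congrFun e i)
    have hm : ∀ m, k m ≠ d m * M → MvPolynomial.eval (fun i => (x i).coeff M) (F m) = 0 := by
      intro m hm
      rw [← (coeff_top h.deg (h.hom m)).2, h.eq m, coeff_C_mul, coeff_X_pow, if_neg (Ne.symm hm), mul_zero]
    obtain ⟨m, n, hmn, hP⟩ := exists_pair hr (P := fun m => k m ≠ d m * M) fun l m n hlm hln hmn hl hm' hn =>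
      h.gen.no_triple h.hom hlm hln hmn hp ⟨hm l hl, hm m hm', hm n hn⟩
    have h1 : (det3 w₁ w₂ w₃).natDegree + (d m + d n) * M ≤ e₁ + e₂ + e₃ + k m + k n :=
      Pool.Agent.GKR.top (h.pair hmn) he₁ he₂ he₃ (h₁.pair m n) (h₂.pair m n) (h₃.pair m n) hΔ
    have h2 : ∑ l, (d l * M - k l) = (d m * M - k m) + (d n * M - k n) := sum_pair hmn fun l hl hl' => by
      have h3 : k l = d l * M := by
        by_contra h0
        rcases hP l h0 with h1 | h1
        · exact hl h1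
        · exact hl' h1
      rw [h3, Nat.sub_self]
    have h3 : ∑ l, (d l * M - k l) + ∑ l, k l = (∑ l, d l) * M := by
      rw [← Finset.sum_add_distrib, Finset.sum_mul]
      exact Finset.sum_congr rfl fun l _ => Nat.sub_add_cancel (hkd l)
    have h4 := hkd m
    have h5 := hkd n
    have h6 : (d m + d n) * M = d m * M + d n * M := by ring
    omega
  omega

end Pool.Agent.GKR
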