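import Pool.Agent.GKR.Fin
import Pool.Agent.GKR.Ex
import Pool.Agent.TCN.FinC

/-!
# GKR Main: the complement of a reducible very general plane curve of degree at least five
-/

set_option autoImplicit false

open MvPolynomial
open Pool.Agent.H17 (PN)
open Pool.Agent.H17R (GGLWith)
open Pool.Agent.TC (plane_dim)
open Pool.Agent.Results.MP_64ff02_ag.SmoothSurfaces (FourProperties)

namespace Pool.Agent.GKR

variable {r : ℕ} {d : Fin r → ℕ} {G : Fin r → MvPolynomial (Fin 3) ℂ}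

/-- **Reducible very general curves.** -/
theorem main_generic_r (hr : 2 ≤ r) (hd : ∀ m, 1 ≤ d m) (h5 : 5 ≤ ∑ m, d m) (hG : ∀ m, (G m).IsHomogeneous (d m)) (hgen : Generic d G) :
    GGLWith ⊥ (fun _ : Fin 1 => ∏ m, G m) ∅ := by
  classical
  obtain ⟨o, ho⟩ : ∃ o : Fin r, o = ⟨0, by omega⟩ := ⟨_, rfl⟩
  obtain ⟨o', ho'⟩ : ∃ o' : Fin r, o' = ⟨1, by omega⟩ := ⟨_, rfl⟩
  have hne : o' ≠ o := by
    rw [ho, ho']
    intro h
    simpa using congrArg Fin.val h
  have hprod : ∏ m, G m = G o * ∏ m ∈ Finset.univ.erase o, G m := (Finset.mul_prod_erase _ _ (Finset.mem_univ o)).symm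
  have hsum : ∑ m, d m = d o + ∑ m ∈ Finset.univ.erase o, d m := (Finset.add_sum_erase _ _ (Finset.mem_univ o)).symm
  have hpos : 1 ≤ ∑ m ∈ Finset.univ.erase o, d m :=
    (hd o').trans (Finset.single_le_sum (f := d) (fun m _ => Nat.zero_le _) (Finset.mem_erase.2 ⟨hne, Finset.mem_univ _⟩))
  have hpair := Pool.Agent.TCN.npair_of_nc (n := 0) (a := ![]) (F := ![]) (d₀ := d o) (d₁ := ∑ m ∈ Finset.univ.erase o, d m) (G₀ := G o)
    (G₁ := ∏ m ∈ Finset.univ.erase o, G m) (fun j => j.elim0) (hd o) hpos (by simp; omega) (fun j => j.elim0) (hG o)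
    (IsHomogeneous.prod _ _ _ fun m _ => hG m) (fun x hx _ => ⟨linearIndependent_empty_type, fun hev _ hgr v _ hv => by
      rw [← hprod] at hev hgr hv
      simp only [Finset.univ_eq_empty, Finset.sum_empty, sub_zero] at hgr hv
      exact hgen.nodal hG hd hx hev hgr v fun w => hv w fun j => j.elim0⟩)
  obtain ⟨Ξ, hΞ⟩ := hpair.exists_four ⊥ homog_bot (fun j hj => absurd j.2 (by omega)) plane_dim
  have hΞ' : FourProperties (⊥ : Ideal (MvPolynomial (Fin 3) ℂ)) (fun _ : Fin 1 => ∏ m, G m) Ξ := by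
    rw [hprod]
    exact hΞ
  exact Pool.Agent.TCN.ggl_one (four_empty hr hd h5 hG hgen hΞ')

end Pool.Agent.GKR
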