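import Pool.Agent.TC.GKLem

/-!
# GKR Two: the two halves of `det3_eq_zero` of `Pool/Agent/TC/GKLem.lean`

The order of the determinant at `0` and its degree.
-/

set_option autoImplicit false

open Polynomial
open Pool.Agent.TC (gr Crv LogV det3 coeff_top)

namespace Pool.Agent.GKR

/-- the cross product -/
private def gkCr {R : Type} [CommRing R] (A B : Fin 3 → R) : Fin 3 → R :=
  ![A 1 * B 2 - A 2 * B 1, A 2 * B 0 - A 0 * B 2, A 0 * B 1 - A 1 * B 0]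

private theorem gk_dep {A B : Fin 3 → ℂ} (h : ∀ l, gkCr A B l = 0) :
    ∃ a : Fin 2 → ℂ, a ≠ 0 ∧ ∀ j, a 0 * A j + a 1 * B j = 0 := by
  have h0 : A 1 * B 2 - A 2 * B 1 = 0 := h 0
  have h1 : A 2 * B 0 - A 0 * B 2 = 0 := h 1
  have h2 : A 0 * B 1 - A 1 * B 0 = 0 := h 2
  by_cases hA : A = 0
  · refine ⟨![1, 0], fun e => ?_, fun j => ?_⟩
    · have := congrFun e 0
      simp at this
    · simp [hA]
  · obtain ⟨l, hl⟩ := Function.ne_iff.1 hA
    refine ⟨![B l, -A l], fun e => ?_, fun j => ?_⟩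
    · have := congrFun e 1
      simp only [Matrix.cons_val_one, Matrix.cons_val_fin_one, Pi.zero_apply, neg_eq_zero] at this
      exact hl this
    · simp only [Matrix.cons_val_zero, Matrix.cons_val_one, Matrix.cons_val_fin_one]
      fin_cases l <;> fin_cases j <;> simp only [Fin.zero_eta, Fin.mk_one, Fin.reduceFinMk] <;> first
        | ring1
        | linear_combination h0
        | linear_combination -h0
        | linear_combination h1
        | linear_combination -h1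
        | linear_combination h2
        | linear_combination -h2

private theorem gk_id (A B a b c : Fin 3 → ℂ[X]) (l : Fin 3) :
    gkCr A B l * det3 a b c =
      a l * ((∑ j, A j * b j) * (∑ j, B j * c j) - (∑ j, A j * c j) * (∑ j, B j * b j)) +
      b l * ((∑ j, A j * c j) * (∑ j, B j * a j) - (∑ j, A j * a j) * (∑ j, B j * c j)) +
      c l * ((∑ j, A j * a j) * (∑ j, B j * b j) - (∑ j, A j * b j) * (∑ j, B j * a j)) := by
  simp only [Fin.sum_univ_three, det3]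
  fin_cases l <;> simp only [gkCr, Fin.zero_eta, Fin.mk_one, Fin.reduceFinMk, Matrix.cons_val_zero, Matrix.cons_val_one, Matrix.cons_val] <;> ring

private theorem gk_coeff0 (x : Fin 3 → ℂ[X]) (P : MvPolynomial (Fin 3) ℂ) :
    (MvPolynomial.aeval x P).coeff 0 = MvPolynomial.eval (fun i => (x i).coeff 0) P := by
  have h : ((Polynomial.constantCoeff : ℂ[X] →+* ℂ).comp (MvPolynomial.aeval x : MvPolynomial (Fin 3) ℂ →ₐ[ℂ] ℂ[X]).toRingHom) =
      (MvPolynomial.eval (fun i => (x i).coeff 0) : MvPolynomial (Fin 3) ℂ →+* ℂ) := by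
    apply MvPolynomial.ringHom_ext
    · intro r
      simp
    · intro i
      simp
  exact RingHom.congr_fun h P

theorem low {d k : Fin 2 → ℕ} {c : Fin 2 → ℂ} {F : Fin 2 → MvPolynomial (Fin 3) ℂ} {x : Fin 3 → ℂ[X]} {M : ℕ} (h : Crv d k c F x M)
    {e₁ e₂ e₃ : ℕ} (he₁ : M ≤ e₁) (he₂ : M ≤ e₂) (he₃ : M ≤ e₃) {w₁ w₂ w₃ : Fin 3 → ℂ[X]}
    (h₁ : LogV F x M e₁ w₁) (h₂ : LogV F x M e₂ w₂) (h₃ : LogV F x M e₃ w₃) (hΔ : det3 w₁ w₂ w₃ ≠ 0) :
    k 0 + k 1 ≤ (det3 w₁ w₂ w₃).natDegree := by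
  set Δ := det3 w₁ w₂ w₃ with hΔdef
  obtain ⟨hw₁, hg₁⟩ := h₁
  obtain ⟨hw₂, hg₂⟩ := h₂
  obtain ⟨hw₃, hg₃⟩ := h₃
  choose g₁ hgd₁ hge₁ using hg₁
  choose g₂ hgd₂ hge₂ using hg₂
  choose g₃ hgd₃ hge₃ using hg₃
  set A : Fin 3 → ℂ[X] := fun j => MvPolynomial.aeval x (MvPolynomial.pderiv j (F 0)) with hA
  set B : Fin 3 → ℂ[X] := fun j => MvPolynomial.aeval x (MvPolynomial.pderiv j (F 1)) with hB
  set u : Fin 3 → ℂ[X] := fun l => w₁ l * (g₂ 0 * g₃ 1 - g₃ 0 * g₂ 1) + w₂ l * (g₃ 0 * g₁ 1 - g₁ 0 * g₃ 1) +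
    w₃ l * (g₁ 0 * g₂ 1 - g₂ 0 * g₁ 1) with hu
  have hkey : ∀ l, gkCr A B l * Δ = C (c 0 * c 1) * X ^ (k 0 + k 1) * u l := by
    intro l
    rw [hΔdef, gk_id]
    have a1 : ∑ j, A j * w₁ j = g₁ 0 * MvPolynomial.aeval x (F 0) := hge₁ 0
    have a2 : ∑ j, A j * w₂ j = g₂ 0 * MvPolynomial.aeval x (F 0) := hge₂ 0
    have a3 : ∑ j, A j * w₃ j = g₃ 0 * MvPolynomial.aeval x (F 0) := hge₃ 0
    have b1 : ∑ j, B j * w₁ j = g₁ 1 * MvPolynomial.aeval x (F 1) := hge₁ 1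
    have b2 : ∑ j, B j * w₂ j = g₂ 1 * MvPolynomial.aeval x (F 1) := hge₂ 1
    have b3 : ∑ j, B j * w₃ j = g₃ 1 * MvPolynomial.aeval x (F 1) := hge₃ 1
    rw [a1, a2, a3, b1, b2, b3, h.eq 0, h.eq 1, pow_add, C_mul]
    simp only [hu]
    ring
  have hud : ∀ l, (u l).natDegree ≤ e₁ + e₂ + e₃ - 2 * M := by
    intro l
    have hsub : ∀ {p q p' q' : ℂ[X]} {m n : ℕ}, p.natDegree ≤ m → q.natDegree ≤ n → p'.natDegree ≤ n → q'.natDegree ≤ m →
        (p * q - p' * q').natDegree ≤ m + n := by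
      intro p q p' q' m n h1 h2 h3 h4
      refine (natDegree_sub_le _ _).trans (max_le (natDegree_mul_le_of_le h1 h2) ?_)
      rw [add_comm m n]
      exact natDegree_mul_le_of_le h3 h4
    have t1 : (w₁ l * (g₂ 0 * g₃ 1 - g₃ 0 * g₂ 1)).natDegree ≤ e₁ + ((e₂ - M) + (e₃ - M)) :=
      natDegree_mul_le_of_le (hw₁ l) (hsub (hgd₂ 0) (hgd₃ 1) (hgd₃ 0) (hgd₂ 1))
    have t2 : (w₂ l * (g₃ 0 * g₁ 1 - g₁ 0 * g₃ 1)).natDegree ≤ e₂ + ((e₃ - M) + (e₁ - M)) :=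
      natDegree_mul_le_of_le (hw₂ l) (hsub (hgd₃ 0) (hgd₁ 1) (hgd₁ 0) (hgd₃ 1))
    have t3 : (w₃ l * (g₁ 0 * g₂ 1 - g₂ 0 * g₁ 1)).natDegree ≤ e₃ + ((e₁ - M) + (e₂ - M)) :=
      natDegree_mul_le_of_le (hw₃ l) (hsub (hgd₁ 0) (hgd₂ 1) (hgd₂ 0) (hgd₁ 1))
    refine (natDegree_add_le_of_degree_le (natDegree_add_le_of_degree_le (t1.trans ?_) (t2.trans ?_)) (t3.trans ?_)) <;> omega
  have hc : c 0 * c 1 ≠ 0 := mul_ne_zero (h.ne 0) (h.ne 1)
  -- the cross product of the gradients at a point of the curves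
  have hcross : ∀ p : Fin 3 → ℂ, p ≠ 0 → (MvPolynomial.eval p (F 0) = 0 ∨ MvPolynomial.eval p (F 1) = 0) →
      ∃ l, gkCr (fun j => MvPolynomial.eval p (MvPolynomial.pderiv j (F 0))) (fun j => MvPolynomial.eval p (MvPolynomial.pderiv j (F 1))) l ≠ 0 := by
    intro p hp hF
    by_contra hcon
    push Not at hcon
    obtain ⟨a, ha, haj⟩ := gk_dep hcon
    refine ha (h.nc p hp hF a fun j => ?_)
    rw [Fin.sum_univ_two]
    exact haj j
  by_cases hk : k 0 = 0 ∧ k 1 = 0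
  · rw [hk.1, hk.2]
    exact Nat.zero_le _
  · have hp : (fun i => (x i).coeff 0) ≠ 0 := by
      obtain ⟨i, hi⟩ := h.low
      exact fun e => hi (congrFun e i)
    have hm : ∀ m, k m ≠ 0 → MvPolynomial.eval (fun i => (x i).coeff 0) (F m) = 0 := by
      intro m hm
      rw [← gk_coeff0, h.eq m, coeff_C_mul, coeff_X_pow, if_neg (Ne.symm hm), mul_zero]
    have hF : MvPolynomial.eval (fun i => (x i).coeff 0) (F 0) = 0 ∨ MvPolynomial.eval (fun i => (x i).coeff 0) (F 1) = 0 := by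
      by_cases h0 : k 0 = 0
      · exact Or.inr (hm 1 fun h1 => hk ⟨h0, h1⟩)
      · exact Or.inl (hm 0 h0)
    obtain ⟨l, hl⟩ := hcross _ hp hF
    have hnX : ¬ (X : ℂ[X]) ∣ gkCr A B l := by
      rw [X_dvd_iff]
      have hcc : (gkCr A B l).coeff 0 = gkCr (fun j => MvPolynomial.eval (fun i => (x i).coeff 0) (MvPolynomial.pderiv j (F 0)))
          (fun j => MvPolynomial.eval (fun i => (x i).coeff 0) (MvPolynomial.pderiv j (F 1))) l := by
        have hj0 : ∀ j, (A j).coeff 0 = MvPolynomial.eval (fun i => (x i).coeff 0) (MvPolynomial.pderiv j (F 0)) := fun j => gk_coeff0 _ _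
        have hj1 : ∀ j, (B j).coeff 0 = MvPolynomial.eval (fun i => (x i).coeff 0) (MvPolynomial.pderiv j (F 1)) := fun j => gk_coeff0 _ _
        fin_cases l <;> simp only [gkCr, Fin.zero_eta, Fin.mk_one, Fin.reduceFinMk, Matrix.cons_val_zero, Matrix.cons_val_one, Matrix.cons_val,
          coeff_sub, mul_coeff_zero, hj0, hj1]
      rw [hcc]
      exact hl
    have hdv : (X : ℂ[X]) ^ (k 0 + k 1) ∣ gkCr A B l * Δ := by
      rw [hkey l]
      exact Dvd.intro_left (C (c 0 * c 1)) rfl |>.mul_right _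
    have hdv' : (X : ℂ[X]) ^ (k 0 + k 1) ∣ Δ := by
      rcases Nat.eq_zero_or_pos (k 0 + k 1) with h0 | h0
      · rw [h0, pow_zero]; exact one_dvd _
      · exact prime_X.pow_dvd_of_dvd_mul_left _ hnX hdv
    have := natDegree_le_of_dvd hdv' hΔ
    rwa [natDegree_X_pow] at this

theorem top {d k : Fin 2 → ℕ} {c : Fin 2 → ℂ} {F : Fin 2 → MvPolynomial (Fin 3) ℂ} {x : Fin 3 → ℂ[X]} {M : ℕ} (h : Crv d k c F x M)
    {e₁ e₂ e₃ : ℕ} (he₁ : M ≤ e₁) (he₂ : M ≤ e₂) (he₃ : M ≤ e₃) {w₁ w₂ w₃ : Fin 3 → ℂ[X]}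
    (h₁ : LogV F x M e₁ w₁) (h₂ : LogV F x M e₂ w₂) (h₃ : LogV F x M e₃ w₃) (hΔ : det3 w₁ w₂ w₃ ≠ 0) :
    (det3 w₁ w₂ w₃).natDegree + (d 0 + d 1) * M ≤ e₁ + e₂ + e₃ + k 0 + k 1 := by
  set Δ := det3 w₁ w₂ w₃ with hΔdef
  obtain ⟨hw₁, hg₁⟩ := h₁
  obtain ⟨hw₂, hg₂⟩ := h₂
  obtain ⟨hw₃, hg₃⟩ := h₃
  choose g₁ hgd₁ hge₁ using hg₁
  choose g₂ hgd₂ hge₂ using hg₂
  choose g₃ hgd₃ hge₃ using hg₃
  set A : Fin 3 → ℂ[X] := fun j => MvPolynomial.aeval x (MvPolynomial.pderiv j (F 0)) with hA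
  set B : Fin 3 → ℂ[X] := fun j => MvPolynomial.aeval x (MvPolynomial.pderiv j (F 1)) with hB
  set u : Fin 3 → ℂ[X] := fun l => w₁ l * (g₂ 0 * g₃ 1 - g₃ 0 * g₂ 1) + w₂ l * (g₃ 0 * g₁ 1 - g₁ 0 * g₃ 1) +
    w₃ l * (g₁ 0 * g₂ 1 - g₂ 0 * g₁ 1) with hu
  have hkey : ∀ l, gkCr A B l * Δ = C (c 0 * c 1) * X ^ (k 0 + k 1) * u l := by
    intro l
    rw [hΔdef, gk_id]
    have a1 : ∑ j, A j * w₁ j = g₁ 0 * MvPolynomial.aeval x (F 0) := hge₁ 0
    have a2 : ∑ j, A j * w₂ j = g₂ 0 * MvPolynomial.aeval x (F 0) := hge₂ 0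
    have a3 : ∑ j, A j * w₃ j = g₃ 0 * MvPolynomial.aeval x (F 0) := hge₃ 0
    have b1 : ∑ j, B j * w₁ j = g₁ 1 * MvPolynomial.aeval x (F 1) := hge₁ 1
    have b2 : ∑ j, B j * w₂ j = g₂ 1 * MvPolynomial.aeval x (F 1) := hge₂ 1
    have b3 : ∑ j, B j * w₃ j = g₃ 1 * MvPolynomial.aeval x (F 1) := hge₃ 1
    rw [a1, a2, a3, b1, b2, b3, h.eq 0, h.eq 1, pow_add, C_mul]
    simp only [hu]
    ring
  have hud : ∀ l, (u l).natDegree ≤ e₁ + e₂ + e₃ - 2 * M := by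
    intro l
    have hsub : ∀ {p q p' q' : ℂ[X]} {m n : ℕ}, p.natDegree ≤ m → q.natDegree ≤ n → p'.natDegree ≤ n → q'.natDegree ≤ m →
        (p * q - p' * q').natDegree ≤ m + n := by
      intro p q p' q' m n h1 h2 h3 h4
      refine (natDegree_sub_le _ _).trans (max_le (natDegree_mul_le_of_le h1 h2) ?_)
      rw [add_comm m n]
      exact natDegree_mul_le_of_le h3 h4
    have t1 : (w₁ l * (g₂ 0 * g₃ 1 - g₃ 0 * g₂ 1)).natDegree ≤ e₁ + ((e₂ - M) + (e₃ - M)) :=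
      natDegree_mul_le_of_le (hw₁ l) (hsub (hgd₂ 0) (hgd₃ 1) (hgd₃ 0) (hgd₂ 1))
    have t2 : (w₂ l * (g₃ 0 * g₁ 1 - g₁ 0 * g₃ 1)).natDegree ≤ e₂ + ((e₃ - M) + (e₁ - M)) :=
      natDegree_mul_le_of_le (hw₂ l) (hsub (hgd₃ 0) (hgd₁ 1) (hgd₁ 0) (hgd₃ 1))
    have t3 : (w₃ l * (g₁ 0 * g₂ 1 - g₂ 0 * g₁ 1)).natDegree ≤ e₃ + ((e₁ - M) + (e₂ - M)) :=
      natDegree_mul_le_of_le (hw₃ l) (hsub (hgd₁ 0) (hgd₂ 1) (hgd₂ 0) (hgd₁ 1))
    refine (natDegree_add_le_of_degree_le (natDegree_add_le_of_degree_le (t1.trans ?_) (t2.trans ?_)) (t3.trans ?_)) <;> omega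
  have hc : c 0 * c 1 ≠ 0 := mul_ne_zero (h.ne 0) (h.ne 1)
  -- the cross product of the gradients at a point of the curves
  have hcross : ∀ p : Fin 3 → ℂ, p ≠ 0 → (MvPolynomial.eval p (F 0) = 0 ∨ MvPolynomial.eval p (F 1) = 0) →
      ∃ l, gkCr (fun j => MvPolynomial.eval p (MvPolynomial.pderiv j (F 0))) (fun j => MvPolynomial.eval p (MvPolynomial.pderiv j (F 1))) l ≠ 0 := by
    intro p hp hF
    by_contra hcon
    push Not at hcon
    obtain ⟨a, ha, haj⟩ := gk_dep hcon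
    refine ha (h.nc p hp hF a fun j => ?_)
    rw [Fin.sum_univ_two]
    exact haj j
  have hkd : ∀ m, k m ≤ d m * M := by
    intro m
    have h1 := (coeff_top h.deg (h.hom m)).1
    rw [h.eq m, natDegree_C_mul_X_pow _ _ (h.ne m)] at h1
    exact h1
  by_cases hk : k 0 = d 0 * M ∧ k 1 = d 1 * M
  · have hD : Δ.natDegree ≤ e₁ + e₂ + e₃ := by
      have hsub : ∀ {p q p' q' : ℂ[X]} {m n : ℕ}, p.natDegree ≤ m → q.natDegree ≤ n → p'.natDegree ≤ m → q'.natDegree ≤ n →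
          (p * q - p' * q').natDegree ≤ m + n := by
        intro p q p' q' m n h1 h2 h3 h4
        exact (natDegree_sub_le _ _).trans (max_le (natDegree_mul_le_of_le h1 h2) (natDegree_mul_le_of_le h3 h4))
      have s0 := natDegree_mul_le_of_le (hw₁ 0) (hsub (hw₂ 1) (hw₃ 2) (hw₂ 2) (hw₃ 1))
      have s1 := natDegree_mul_le_of_le (hw₁ 1) (hsub (hw₂ 0) (hw₃ 2) (hw₂ 2) (hw₃ 0))
      have s2 := natDegree_mul_le_of_le (hw₁ 2) (hsub (hw₂ 0) (hw₃ 1) (hw₂ 1) (hw₃ 0))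
      have s3 := natDegree_add_le_of_degree_le ((natDegree_sub_le _ _).trans (max_le s0 s1)) s2
      rw [← add_assoc] at s3
      exact s3
    have : (d 0 + d 1) * M = k 0 + k 1 := by rw [hk.1, hk.2]; ring
    omega
  · have hp : (fun i => (x i).coeff M) ≠ 0 := by
      obtain ⟨i, hi⟩ := h.top
      exact fun e => hi (congrFun e i)
    have hm : ∀ m, k m ≠ d m * M → MvPolynomial.eval (fun i => (x i).coeff M) (F m) = 0 := by
      intro m hm
      rw [← (coeff_top h.deg (h.hom m)).2, h.eq m, coeff_C_mul, coeff_X_pow, if_neg (Ne.symm hm), mul_zero]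
    have hF : MvPolynomial.eval (fun i => (x i).coeff M) (F 0) = 0 ∨ MvPolynomial.eval (fun i => (x i).coeff M) (F 1) = 0 := by
      by_cases h0 : k 0 = d 0 * M
      · exact Or.inr (hm 1 fun h1 => hk ⟨h0, h1⟩)
      · exact Or.inl (hm 0 h0)
    obtain ⟨l, hl⟩ := hcross _ hp hF
    have hj0 := fun j => coeff_top h.deg ((h.hom 0).pderiv (i := j))
    have hj1 := fun j => coeff_top h.deg ((h.hom 1).pderiv (i := j))
    have hcoef : (gkCr A B l).coeff ((d 0 - 1) * M + (d 1 - 1) * M) = gkCr (fun j => MvPolynomial.eval (fun i => (x i).coeff M) (MvPolynomial.pderiv j (F 0)))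
          (fun j => MvPolynomial.eval (fun i => (x i).coeff M) (MvPolynomial.pderiv j (F 1))) l := by
      have hmul : ∀ i j, (A i * B j).coeff ((d 0 - 1) * M + (d 1 - 1) * M) =
          MvPolynomial.eval (fun i => (x i).coeff M) (MvPolynomial.pderiv i (F 0)) * MvPolynomial.eval (fun i => (x i).coeff M) (MvPolynomial.pderiv j (F 1)) := by
        intro i j
        rw [coeff_mul_add_eq_of_natDegree_le (hj0 i).1 (hj1 j).1, (hj0 i).2, (hj1 j).2]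
      fin_cases l <;> simp only [gkCr, Fin.zero_eta, Fin.mk_one, Fin.reduceFinMk, Matrix.cons_val_zero, Matrix.cons_val_one, Matrix.cons_val,
          coeff_sub, hmul]
    have hne : (gkCr A B l).coeff ((d 0 - 1) * M + (d 1 - 1) * M) ≠ 0 := by rw [hcoef]; exact hl
    have hge : (d 0 - 1) * M + (d 1 - 1) * M ≤ (gkCr A B l).natDegree := le_natDegree_of_ne_zero hne
    have hcr0 : gkCr A B l ≠ 0 := fun e => hne (by rw [e, coeff_zero])
    have hdeg : (gkCr A B l).natDegree + Δ.natDegree ≤ (k 0 + k 1) + (e₁ + e₂ + e₃ - 2 * M) := by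
      rw [← natDegree_mul hcr0 hΔ, hkey l]
      exact natDegree_mul_le_of_le (natDegree_C_mul_X_pow_le _ _) (hud l)
    have e0 : (d 0 - 1) * M + M = d 0 * M := by
      obtain ⟨n, hn⟩ := Nat.exists_eq_add_of_le' (h.pos 0)
      rw [hn]
      simp only [Nat.add_sub_cancel]
      ring
    have e1 : (d 1 - 1) * M + M = d 1 * M := by
      obtain ⟨n, hn⟩ := Nat.exists_eq_add_of_le' (h.pos 1)
      rw [hn]
      simp only [Nat.add_sub_cancel]
      ring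
    have e2 : (d 0 + d 1) * M = d 0 * M + d 1 * M := by ring
    omega

end Pool.Agent.GKR
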